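import Pool.Agent.Run7.h661.Z.Slice

/-!
# The network at a fixed time is a regular network
-/

open Set Filter Topology
open scoped Real ContDiff

namespace Run7.h661z

/-- the pieces and the bar -/
structure NS (Ps Pc Pa Pb : Pd) (t R h xa ya φ xb : ℝ) : Prop extends
    NS0 Ps Pc Pa t R h xa ya φ xb where
  b : Pb.Sl t
  b0 : ∀ p, Pb.x t p = (2 * p - 1) * xb ∧ Pb.y t p = 0 ∧ Pb.al t p = 0

/-- the eleven curves -/
noncomputable def net (Ps Pc Pa Pb : Pd) : Arc → Pd
  | .bar => Pb
  | .short σ τ => Ps.refl σ τ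
  | .cap τ => Pc.refl true τ
  | .arm σ τ => Pa.refl σ τ

/-- vertices -/
inductive Vx : Type
  | a : Bool → Bool → Vx
  | b : Bool → Vx
  | e : Bool → Bool → Vx

/-- the vertex at which a curve end sits -/
def lab : Arc × Bool → Vx
  | (.bar, β) => .b β
  | (.short σ τ, false) => .a σ τ
  | (.short σ _, true) => .b σ
  | (.cap τ, β) => .a (!β) τ
  | (.arm σ τ, false) => .a σ τ
  | (.arm σ τ, true) => .e σ τ

noncomputable def posR (R xa xb : ℝ) : Vx → ℝ
  | .a σ _ => sg σ * xa
  | .b σ => sg σ * xb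
  | .e σ _ => sg σ * R
noncomputable def posI (h ya : ℝ) : Vx → ℝ
  | .a _ τ => sg τ * ya
  | .b _ => 0
  | .e _ τ => sg τ * h

lemma sg_inj {σ σ' : Bool} {x y : ℝ} (hx : 0 < x) (hy : 0 < y) (h : sg σ * x = sg σ' * y) :
    σ = σ' ∧ x = y := by
  cases σ <;> cases σ' <;> simp only [sg, cond_true, cond_false] at h
  · exact ⟨rfl, by linarith⟩
  · exact absurd h (by intro h; linarith)
  · exact absurd h (by intro h; linarith)
  · exact ⟨rfl, by linarith⟩

lemma sg_mul_eq {σ : Bool} {x y : ℝ} (h : sg σ * x = sg σ * y) : x = y :=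
  mul_left_cancel₀ (sg_ne σ) h

section
variable {Ps Pc Pa Pb : Pd} {t R h xa ya φ xb : ℝ} (N : NS Ps Pc Pa Pb t R h xa ya φ xb)
include N

lemma NS.net_sl (i : Arc) : (net Ps Pc Pa Pb i).Sl t := by
  cases i with
  | bar => exact N.b
  | short σ τ => exact N.s.refl σ τ
  | cap τ => exact N.c.refl true τ
  | arm σ τ => exact N.a.refl σ τ

lemma NS.endpt_re (e : Arc × Bool) : (endpt (fun i => (net Ps Pc Pa Pb i).c t) e).re =
    posR R xa xb (lab e) ∧ (endpt (fun i => (net Ps Pc Pa Pb i).c t) e).im = posI h ya (lab e) := by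
  obtain ⟨i, β⟩ := e
  have s0 := N.s0
  have s1 := N.s1
  have c0 := N.c0
  have c1 := N.c1
  have a0 := N.a0
  have a1 := N.a1
  have b0 := N.b0
  cases i with
  | bar =>
    cases β
    · simp only [endpt, cond, c_re, c_im, net, lab, posR, posI, sg, (b0 0).1, (b0 0).2.1]
      constructor <;> first | trivial | ring
    · simp only [endpt, cond, c_re, c_im, net, lab, posR, posI, sg, (b0 1).1, (b0 1).2.1]
      constructor <;> first | trivial | ring
  | short σ τ =>
    cases β
    · simp only [endpt, cond, c_re, c_im, net, lab, posR, posI, Pd.refl, s0.1, s0.2.1]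
      constructor <;> first | trivial | ring
    · simp only [endpt, cond, c_re, c_im, net, lab, posR, posI, Pd.refl, s1.1, s1.2.1]
      constructor <;> first | trivial | ring
  | cap τ =>
    cases β
    · simp only [endpt, cond, c_re, c_im, net, lab, posR, posI, Pd.refl, c0.1, c0.2.1, Bool.not_false]
      constructor <;> first | trivial | ring
    · simp only [endpt, cond, c_re, c_im, net, lab, posR, posI, Pd.refl, c1.1, c1.2.1, Bool.not_true,
        sg]
      constructor <;> first | trivial | ring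
  | arm σ τ =>
    cases β
    · simp only [endpt, cond, c_re, c_im, net, lab, posR, posI, Pd.refl, a0.1, a0.2.1]
      constructor <;> first | trivial | ring
    · simp only [endpt, cond, c_re, c_im, net, lab, posR, posI, Pd.refl, a1.1, a1.2]
      constructor <;> first | trivial | ring

lemma NS.pos_inj {v w : Vx} (h1 : posR R xa xb v = posR R xa xb w)
    (h2 : posI h ya v = posI h ya w) : v = w := by
  have hxa := N.xa0
  have hxs := N.xs
  have hR := N.hR
  have hya := N.ya0
  have hh := N.hh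
  obtain ⟨hxb, hxb2⟩ := N.xb0
  cases v with
  | a σ τ =>
    cases w with
    | a σ' τ' =>
      simp only [posR, posI] at h1 h2
      rw [(sg_inj hxa hxa h1).1, (sg_inj hya hya h2).1]
    | b σ' =>
      simp only [posR, posI] at h1 h2
      exact absurd h2 (mul_ne_zero (sg_ne _) hya.ne')
    | e σ' τ' =>
      simp only [posR, posI] at h1 h2
      have := (sg_inj hxa (by linarith) h1).2
      linarith
  | b σ =>
    cases w with
    | a σ' τ' =>
      simp only [posR, posI] at h1 h2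
      exact absurd h2.symm (mul_ne_zero (sg_ne _) hya.ne')
    | b σ' =>
      simp only [posR, posI] at h1 h2
      rw [(sg_inj hxb hxb h1).1]
    | e σ' τ' =>
      simp only [posR, posI] at h1 h2
      exact absurd h2.symm (mul_ne_zero (sg_ne _) hh.ne')
  | e σ τ =>
    cases w with
    | a σ' τ' =>
      simp only [posR, posI] at h1 h2
      have := (sg_inj (by linarith) hxa h1).2
      linarith
    | b σ' =>
      simp only [posR, posI] at h1 h2
      exact absurd h2 (mul_ne_zero (sg_ne _) hh.ne')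
    | e σ' τ' =>
      simp only [posR, posI] at h1 h2
      rw [(sg_inj (by linarith) (by linarith) h1).1, (sg_inj hh hh h2).1]

lemma NS.endpt_iff (e e' : Arc × Bool) :
    endpt (fun i => (net Ps Pc Pa Pb i).c t) e' = endpt (fun i => (net Ps Pc Pa Pb i).c t) e ↔
      lab e' = lab e := by
  obtain ⟨h1, h2⟩ := N.endpt_re e
  obtain ⟨h3, h4⟩ := N.endpt_re e'
  constructor
  · intro he
    apply N.pos_inj
    · rw [← h1, ← h3, he]
    · rw [← h2, ← h4, he]
  · intro he
    apply Complex.ext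
    · rw [h1, h3, he]
    · rw [h2, h4, he]

lemma NS.endsAt_eq (e : Arc × Bool) : endsAt (fun i => (net Ps Pc Pa Pb i).c t) e =
    (open Classical in Finset.univ.filter (fun e' => lab e' = lab e)) := by
  classical
  unfold endsAt
  ext e'
  simp only [Finset.mem_filter, Finset.mem_univ, true_and]
  exact N.endpt_iff e e'

omit N in
lemma fib_a (σ τ : Bool) : (open Classical in Finset.univ.filter (fun e' : Arc × Bool =>
    lab e' = .a σ τ)) = (open Classical in
      ({(Arc.short σ τ, false), (Arc.cap τ, !σ), (Arc.arm σ τ, false)} : Finset (Arc × Bool))) := by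
  classical
  ext ⟨i, β⟩
  simp only [Finset.mem_filter, Finset.mem_univ, true_and, Finset.mem_insert,
    Finset.mem_singleton]
  cases i <;> cases β <;> cases σ <;> simp [lab]

omit N in
lemma fib_b (σ : Bool) : (open Classical in Finset.univ.filter (fun e' : Arc × Bool =>
    lab e' = .b σ)) = (open Classical in
      ({(Arc.bar, σ), (Arc.short σ true, true), (Arc.short σ false, true)} :
        Finset (Arc × Bool))) := by
  classical
  ext ⟨i, β⟩
  simp only [Finset.mem_filter, Finset.mem_univ, true_and, Finset.mem_insert,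
    Finset.mem_singleton]
  rcases i with (_ | ⟨σ', τ'⟩ | τ' | ⟨σ', τ'⟩)
  · simp [lab]
  · cases β <;> cases τ' <;> simp [lab]
  · simp [lab]
  · cases β <;> simp [lab]

omit N in
lemma fib_e (σ τ : Bool) : (open Classical in Finset.univ.filter (fun e' : Arc × Bool =>
    lab e' = .e σ τ)) = {(Arc.arm σ τ, true)} := by
  classical
  ext ⟨i, β⟩
  simp only [Finset.mem_filter, Finset.mem_univ, true_and, Finset.mem_singleton]
  rcases i with (_ | ⟨σ', τ'⟩ | τ' | ⟨σ', τ'⟩)
  · simp [lab]
  · cases β <;> simp [lab]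
  · simp [lab]
  · cases β <;> simp [lab]

lemma NS.endTan_eq (e : Arc × Bool) : endTan (fun i => (net Ps Pc Pa Pb i).c t) e =
    cond e.2 (-uv ((net Ps Pc Pa Pb e.1).al t 1)) (uv ((net Ps Pc Pa Pb e.1).al t 0)) := by
  obtain ⟨i, β⟩ := e
  have S := N.net_sl i
  cases β
  · simp only [endTan, cond, S.tan ⟨le_refl _, zero_le_one⟩]
  · simp only [endTan, cond, S.tan ⟨zero_le_one, le_refl _⟩]

omit N in
lemma sum_trig (x : ℝ) : Real.cos (-(2 * π / 3) + x) + Real.cos (2 * π / 3 + x) + Real.cos x = 0 ∧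
    Real.sin (-(2 * π / 3) + x) + Real.sin (2 * π / 3 + x) + Real.sin x = 0 := by
  have h3 : Real.cos (2 * π / 3) = -1 / 2 := by
    rw [show 2 * π / 3 = π - π / 3 by ring, Real.cos_pi_sub, Real.cos_pi_div_three]; norm_num
  constructor
  · rw [Real.cos_add, Real.cos_add, Real.cos_neg, Real.sin_neg, h3]; ring
  · rw [Real.sin_add, Real.sin_add, Real.cos_neg, Real.sin_neg, h3]; ring

lemma NS.sum_a (σ τ : Bool) : ∑ e' ∈ (open Classical in
    ({(Arc.short σ τ, false), (Arc.cap τ, !σ), (Arc.arm σ τ, false)} : Finset (Arc × Bool))),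
    endTan (fun i => (net Ps Pc Pa Pb i).c t) e' = 0 := by
  classical
  rw [Finset.sum_insert (by simp), Finset.sum_insert (by simp), Finset.sum_singleton,
    N.endTan_eq, N.endTan_eq, N.endTan_eq]
  have s0 := N.s0
  have c0 := N.c0
  have c1 := N.c1
  have a0 := N.a0
  obtain ⟨t1, t2⟩ := sum_trig φ
  have e1 : uv ((net Ps Pc Pa Pb (.short σ τ)).al t 0) =
      ((sg σ * Real.cos (-(2 * π / 3) + φ) : ℝ) : ℂ) +
      ((sg τ * Real.sin (-(2 * π / 3) + φ) : ℝ) : ℂ) * Complex.I := by
    simp only [net, Pd.refl]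
    rw [refl_uv, s0.2.2]
  have e3 : uv ((net Ps Pc Pa Pb (.arm σ τ)).al t 0) =
      ((sg σ * Real.cos φ : ℝ) : ℂ) + ((sg τ * Real.sin φ : ℝ) : ℂ) * Complex.I := by
    simp only [net, Pd.refl]
    rw [refl_uv, a0.2.2]
  have e2 : cond (!σ) (-uv ((net Ps Pc Pa Pb (.cap τ)).al t 1))
      (uv ((net Ps Pc Pa Pb (.cap τ)).al t 0)) =
      ((sg σ * Real.cos (2 * π / 3 + φ) : ℝ) : ℂ) +
      ((sg τ * Real.sin (2 * π / 3 + φ) : ℝ) : ℂ) * Complex.I := by
    cases σ
    · simp only [net, Pd.refl, Bool.not_false, cond_true]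
      rw [show (sg true) = sg true from rfl]
      have := refl_uv true τ (Pc.al t 1)
      simp only [cond_true] at this
      rw [this, c1.2.2, Real.cos_two_pi_sub, Real.sin_two_pi_sub]
      simp only [sg, cond_true, cond_false]
      push_cast; ring
    · simp only [net, Pd.refl, Bool.not_true, cond_false]
      have := refl_uv true τ (Pc.al t 0)
      simp only [cond_true] at this
      rw [cond_true, this, c0.2.2]
  simp only [cond_false]
  rw [e1, e2, e3]
  have q1 : ((sg σ * (Real.cos (-(2 * π / 3) + φ) + Real.cos (2 * π / 3 + φ) + Real.cos φ) : ℝ) : ℂ)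
      = 0 := by rw [t1, mul_zero, Complex.ofReal_zero]
  have q2 : ((sg τ * (Real.sin (-(2 * π / 3) + φ) + Real.sin (2 * π / 3 + φ) + Real.sin φ) : ℝ) : ℂ)
      = 0 := by rw [t2, mul_zero, Complex.ofReal_zero]
  push_cast at q1 q2 ⊢
  linear_combination q1 + Complex.I * q2

lemma NS.sum_b (σ : Bool) : ∑ e' ∈ (open Classical in
    ({(Arc.bar, σ), (Arc.short σ true, true), (Arc.short σ false, true)} : Finset (Arc × Bool))),
    endTan (fun i => (net Ps Pc Pa Pb i).c t) e' = 0 := by
  classical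
  rw [Finset.sum_insert (by simp), Finset.sum_insert (by simp), Finset.sum_singleton,
    N.endTan_eq, N.endTan_eq, N.endTan_eq]
  have s1 := N.s1
  have b0 := N.b0
  have h3 : Real.cos (2 * π / 3) = -1 / 2 := by
    rw [show 2 * π / 3 = π - π / 3 by ring, Real.cos_pi_sub, Real.cos_pi_div_three]; norm_num
  have e1 : ∀ τ, uv ((net Ps Pc Pa Pb (.short σ τ)).al t 1) =
      ((sg σ * (-1 / 2) : ℝ) : ℂ) +
      ((sg τ * Real.sin (-(2 * π / 3)) : ℝ) : ℂ) * Complex.I := by
    intro τ
    simp only [net, Pd.refl]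
    rw [refl_uv, s1.2.2, Real.cos_neg, h3]
  have e2 : cond σ (-uv ((net Ps Pc Pa Pb .bar).al t 1))
      (uv ((net Ps Pc Pa Pb .bar).al t 0)) = ((-sg σ : ℝ) : ℂ) := by
    simp only [net]
    rw [(b0 1).2.2, (b0 0).2.2, uv, Real.cos_zero, Real.sin_zero]
    cases σ <;> simp [sg]
  simp only [cond_true]
  rw [e1, e1, e2]
  simp only [sg, cond_true, cond_false]
  push_cast
  ring

/-! ### position in the disc -/

omit N in
lemma rB_pos {R h : ℝ} (hh : 0 < h) : 0 < √(R ^ 2 + h ^ 2) := Real.sqrt_pos.2 (by positivity)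

omit N in
lemma norm_le_iff {R h : ℝ} (z : ℂ) : ‖z‖ ≤ √(R ^ 2 + h ^ 2) ↔ z.re ^ 2 + z.im ^ 2 ≤ R ^ 2 + h ^ 2 := by
  rw [← Real.sqrt_sq (norm_nonneg z), Complex.sq_norm, Complex.normSq_apply, Real.sqrt_le_sqrt_iff
    (by positivity)]
  constructor <;> intro h <;> nlinarith

omit N in
lemma norm_lt_iff' {R h : ℝ} (z : ℂ) : ‖z‖ < √(R ^ 2 + h ^ 2) ↔ z.re ^ 2 + z.im ^ 2 < R ^ 2 + h ^ 2 := by
  rw [← Real.sqrt_sq (norm_nonneg z), Complex.sq_norm, Complex.normSq_apply, Real.sqrt_lt_sqrt_iff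
    (by nlinarith [mul_self_nonneg z.re, mul_self_nonneg z.im])]
  constructor <;> intro h <;> nlinarith

lemma NS.in_ball {z : ℂ} (h1 : |z.re| ≤ 20) (h2 : |z.im| ≤ 20) :
    z ∈ Metric.ball (0:ℂ) √(R ^ 2 + h ^ 2) := by
  rw [mem_ball_zero_iff, norm_lt_iff']
  have a1 := abs_le.1 h1
  have a2 := abs_le.1 h2
  have hR := N.hR
  nlinarith [sq_nonneg h]

lemma NS.mem_cl (i : Arc) {p : ℝ} (hp : p ∈ Icc (0:ℝ) 1) :
    (net Ps Pc Pa Pb i).c t p ∈ closure (Metric.ball (0:ℂ) √(R ^ 2 + h ^ 2)) := by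
  have hxa := N.xa0
  have hxs := N.xs
  have hyx := N.yx
  have hya := N.ya0
  have hR := N.hR
  have hh := N.hh
  obtain ⟨hxb, hxb2⟩ := N.xb0
  cases i with
  | bar =>
    apply subset_closure
    apply N.in_ball
    · rw [c_re, net, (N.b0 p).1, abs_mul, abs_of_pos hxb]
      have : |2 * p - 1| ≤ 1 := abs_le.2 ⟨by linarith [hp.1], by linarith [hp.2]⟩
      nlinarith
    · rw [c_im, net, (N.b0 p).2.1, abs_zero]; norm_num
  | short σ τ =>
    apply subset_closure
    obtain ⟨y0, y1, -, -⟩ := N.s_y hp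
    obtain ⟨x0, x1, -⟩ := N.s_x hp
    apply N.in_ball
    · rw [c_re]
      simp only [net, Pd.refl]
      rw [sg_abs, abs_of_pos x0]; linarith
    · rw [c_im]
      simp only [net, Pd.refl]
      rw [sg_abs, abs_of_nonneg y0]; linarith
  | cap τ =>
    apply subset_closure
    obtain ⟨x0, x1, -, -⟩ := N.c_x hp
    obtain ⟨y0, y1⟩ := N.c_y hp
    apply N.in_ball
    · rw [c_re]
      simp only [net, Pd.refl]
      rw [sg_abs, abs_le]; constructor <;> linarith
    · rw [c_im]
      simp only [net, Pd.refl]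
      rw [sg_abs, abs_of_nonneg (by linarith)]; linarith
  | arm σ τ =>
    obtain ⟨x0, x1, -⟩ := N.a_x hp
    obtain ⟨y0, y1⟩ := N.a_y hp
    rw [closure_ball _ (rB_pos hh).ne', mem_closedBall_zero_iff, norm_le_iff, c_re, c_im]
    simp only [net, Pd.refl]
    have e1 : (sg σ * Pa.x t p) ^ 2 = Pa.x t p ^ 2 := by
      rw [mul_pow, sq (sg σ), sg_sq, one_mul]
    have e2 : (sg τ * Pa.y t p) ^ 2 = Pa.y t p ^ 2 := by
      rw [mul_pow, sq (sg τ), sg_sq, one_mul]
    rw [e1, e2]
    have q1 : Pa.x t p ^ 2 ≤ R ^ 2 := by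
      apply pow_le_pow_left₀ (by linarith) x1
    have q2 : Pa.y t p ^ 2 ≤ h ^ 2 := by
      apply pow_le_pow_left₀ (by linarith) y1
    linarith

lemma NS.mem_op (i : Arc) {p : ℝ} (hp : p ∈ Ioo (0:ℝ) 1) :
    (net Ps Pc Pa Pb i).c t p ∈ Metric.ball (0:ℂ) √(R ^ 2 + h ^ 2) := by
  have hpI : p ∈ Icc (0:ℝ) 1 := ⟨hp.1.le, hp.2.le⟩
  have hxa := N.xa0
  have hxs := N.xs
  have hyx := N.yx
  have hya := N.ya0
  have hR := N.hR
  obtain ⟨hxb, hxb2⟩ := N.xb0
  cases i with
  | bar =>
    apply N.in_ball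
    · rw [c_re, net, (N.b0 p).1, abs_mul, abs_of_pos hxb]
      have : |2 * p - 1| ≤ 1 := abs_le.2 ⟨by linarith [hp.1], by linarith [hp.2]⟩
      nlinarith
    · rw [c_im, net, (N.b0 p).2.1, abs_zero]; norm_num
  | short σ τ =>
    obtain ⟨y0, y1, -, -⟩ := N.s_y hpI
    obtain ⟨x0, x1, -⟩ := N.s_x hpI
    apply N.in_ball
    · rw [c_re]
      simp only [net, Pd.refl]
      rw [sg_abs, abs_of_pos x0]; linarith
    · rw [c_im]
      simp only [net, Pd.refl]
      rw [sg_abs, abs_of_nonneg y0]; linarith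
  | cap τ =>
    obtain ⟨x0, x1, -, -⟩ := N.c_x hpI
    obtain ⟨y0, y1⟩ := N.c_y hpI
    apply N.in_ball
    · rw [c_re]
      simp only [net, Pd.refl]
      rw [sg_abs, abs_le]; constructor <;> linarith
    · rw [c_im]
      simp only [net, Pd.refl]
      rw [sg_abs, abs_of_nonneg (by linarith)]; linarith
  | arm σ τ =>
    obtain ⟨x0, x1, -⟩ := N.a_x hpI
    obtain ⟨y0, y1⟩ := N.a_y hpI
    have x2 : Pa.x t p < R := by
      have := N.a_mono hpI (⟨zero_le_one, le_refl _⟩ : (1:ℝ) ∈ Icc (0:ℝ) 1) hp.2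
      rwa [N.a1.1] at this
    rw [mem_ball_zero_iff, norm_lt_iff', c_re, c_im]
    simp only [net, Pd.refl]
    have e1 : (sg σ * Pa.x t p) ^ 2 = Pa.x t p ^ 2 := by
      rw [mul_pow, sq (sg σ), sg_sq, one_mul]
    have e2 : (sg τ * Pa.y t p) ^ 2 = Pa.y t p ^ 2 := by
      rw [mul_pow, sq (sg τ), sg_sq, one_mul]
    rw [e1, e2]
    have q1 : Pa.x t p ^ 2 < R ^ 2 := by
      apply pow_lt_pow_left₀ x2 (by linarith) (by norm_num)
    have q2 : Pa.y t p ^ 2 ≤ h ^ 2 := by
      apply pow_le_pow_left₀ (by linarith) y1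
    linarith

omit N in
/-- a vertex is inside the disc -/
def Vx.inn : Vx → Prop
  | .a _ _ => True
  | .b _ => True
  | .e _ _ => False

lemma NS.inn_iff (e : Arc × Bool) : (lab e).inn →
    endpt (fun i => (net Ps Pc Pa Pb i).c t) e ∈ Metric.ball (0:ℂ) √(R ^ 2 + h ^ 2) := by
  intro hv
  obtain ⟨h1, h2⟩ := N.endpt_re e
  have hxa := N.xa0
  have hxs := N.xs
  have hyx := N.yx
  have hya := N.ya0
  obtain ⟨hxb, hxb2⟩ := N.xb0
  apply N.in_ball
  · rw [h1]
    generalize lab e = v at hv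
    cases v with
    | a σ τ => simp only [posR]; rw [sg_abs, abs_of_pos hxa]; linarith
    | b σ => simp only [posR]; rw [sg_abs, abs_of_pos hxb]; linarith
    | e σ τ => exact absurd hv id
  · rw [h2]
    generalize lab e = v at hv
    cases v with
    | a σ τ => simp only [posI]; rw [sg_abs, abs_of_pos hya]; linarith
    | b σ => simp only [posI]; rw [abs_zero]; norm_num
    | e σ τ => exact absurd hv id

lemma NS.out_iff (e : Arc × Bool) : ¬ (lab e).inn →
    endpt (fun i => (net Ps Pc Pa Pb i).c t) e ∈ frontier (Metric.ball (0:ℂ) √(R ^ 2 + h ^ 2)) := by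
  intro hv
  obtain ⟨h1, h2⟩ := N.endpt_re e
  have hh := N.hh
  rw [frontier_ball _ (rB_pos hh).ne', mem_sphere_zero_iff_norm]
  rw [← Real.sqrt_sq (norm_nonneg _), Complex.sq_norm, Complex.normSq_apply, h1, h2]
  congr 1
  generalize lab e = v at hv
  cases v with
  | a σ τ => exact absurd trivial hv
  | b σ => exact absurd trivial hv
  | e σ τ =>
    simp only [posR, posI]
    linear_combination R ^ 2 * sg_sq σ + h ^ 2 * sg_sq τ

/-! ### intersections -/

lemma NS.meet1 (i j : Arc) (hij : i ≠ j) {p q : ℝ} (hp : p ∈ Icc (0:ℝ) 1) (hq : q ∈ Icc (0:ℝ) 1)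
    (hz : (net Ps Pc Pa Pb i).c t p = (net Ps Pc Pa Pb j).c t q) :
    (p = 0 ∨ p = 1) ∧ (q = 0 ∨ q = 1) := by
  have hr := congrArg Complex.re hz
  have hi := congrArg Complex.im hz
  rw [c_re, c_re] at hr
  rw [c_im, c_im] at hi
  have hxa := N.xa0
  have hya := N.ya0
  obtain ⟨hxb, hxb2⟩ := N.xb0
  have key : ∀ (i j : Arc), i ≠ j → ∀ {p q : ℝ}, p ∈ Icc (0:ℝ) 1 → q ∈ Icc (0:ℝ) 1 →
      (net Ps Pc Pa Pb i).x t p = (net Ps Pc Pa Pb j).x t q →
      (net Ps Pc Pa Pb i).y t p = (net Ps Pc Pa Pb j).y t q →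
      ((i = .bar ∨ ∃ σ τ, i = .short σ τ) ∨ (∃ τ, i = .cap τ) ∧ ((∃ τ, j = .cap τ) ∨
        ∃ σ τ, j = .arm σ τ) ∨ (∃ σ τ, i = .arm σ τ) ∧ ∃ σ τ, j = .arm σ τ) →
      (p = 0 ∨ p = 1) ∧ (q = 0 ∨ q = 1) := by
    intro i j hij p q hp hq hr hi hc
    rcases hc with (rfl | ⟨σ, τ, rfl⟩) | ⟨⟨τ, rfl⟩, (⟨τ', rfl⟩ | ⟨σ', τ', rfl⟩)⟩ |
      ⟨⟨σ, τ, rfl⟩, σ', τ', rfl⟩
    · -- bar
      simp only [net] at hr hi
      rw [(N.b0 p).1] at hr
      rw [(N.b0 p).2.1] at hi
      rcases j with (_ | ⟨σ', τ'⟩ | τ' | ⟨σ', τ'⟩)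
      · exact absurd rfl hij
      · simp only [Pd.refl] at hr hi
        have h1 : Ps.y t q = 0 := by
          rcases mul_eq_zero.1 hi.symm with h | h
          · exact absurd h (sg_ne _)
          · exact h
        have h2 := (N.s_y hq).2.2.1 h1
        rw [h2, N.s1.1] at hr
        have h3 := mul_right_cancel₀ hxb.ne' hr
        refine ⟨?_, Or.inr h2⟩
        cases σ'
        · left; simp only [sg, cond_false] at h3; linarith
        · right; simp only [sg, cond_true] at h3; linarith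
      · simp only [Pd.refl] at hi
        have := (N.c_y hq).1
        rcases mul_eq_zero.1 hi.symm with h | h
        · exact absurd h (sg_ne _)
        · linarith
      · simp only [Pd.refl] at hi
        have := (N.a_y hq).1
        rcases mul_eq_zero.1 hi.symm with h | h
        · exact absurd h (sg_ne _)
        · linarith
    · -- short
      simp only [net, Pd.refl] at hr hi
      obtain ⟨y0, y1, y2, y3⟩ := N.s_y hp
      obtain ⟨x0, x1, -⟩ := N.s_x hp
      rcases j with (_ | ⟨σ', τ'⟩ | τ' | ⟨σ', τ'⟩)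
      · simp only at hr hi
        rw [(N.b0 q).1] at hr
        rw [(N.b0 q).2.1] at hi
        have h1 : Ps.y t p = 0 := by
          rcases mul_eq_zero.1 hi with h | h
          · exact absurd h (sg_ne _)
          · exact h
        have h2 := y2 h1
        rw [h2, N.s1.1] at hr
        have h3 := mul_right_cancel₀ hxb.ne' hr
        refine ⟨Or.inr h2, ?_⟩
        cases σ
        · left; simp only [sg, cond_false] at h3; linarith
        · right; simp only [sg, cond_true] at h3; linarith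
      · simp only [Pd.refl] at hr hi
        obtain ⟨y0', y1', y2', y3'⟩ := N.s_y hq
        obtain ⟨x0', x1', -⟩ := N.s_x hq
        obtain ⟨h1, -⟩ := sg_inj x0 x0' hr
        subst h1
        have h2 : Ps.y t p = 0 ∧ Ps.y t q = 0 := by
          cases τ <;> cases τ' <;> simp only [sg, cond_true, cond_false] at hi
          · exact absurd rfl hij
          · constructor <;> linarith
          · constructor <;> linarith
          · exact absurd rfl hij
        exact ⟨Or.inr (y2 h2.1), Or.inr (y2' h2.2)⟩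
      · simp only [Pd.refl] at hr hi
        obtain ⟨z0, z1⟩ := N.c_y hq
        obtain ⟨w0, w1, w2, w3⟩ := N.c_x hq
        have hy : 0 < Ps.y t p := by
          rcases eq_or_lt_of_le y0 with h | h
          · rw [← h, mul_zero] at hi
            rcases mul_eq_zero.1 hi.symm with h | h
            · exact absurd h (sg_ne _)
            · linarith
          · exact h
        have h1 := (sg_inj hy (hya.trans_le z0) hi).2
        have h2 := y3 (le_antisymm y1 (h1 ▸ z0))
        refine ⟨Or.inl h2, ?_⟩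
        rw [h2, N.s0.1] at hr
        simp only [sg, cond_true, one_mul] at hr
        cases σ
        · right; apply w3; simp only [cond_false] at hr; linarith
        · left; apply w2; simp only [cond_true] at hr; linarith
      · simp only [Pd.refl] at hr hi
        obtain ⟨z0, z1⟩ := N.a_y hq
        obtain ⟨w0, w1, w2⟩ := N.a_x hq
        have hy : 0 < Ps.y t p := by
          rcases eq_or_lt_of_le y0 with h | h
          · rw [← h, mul_zero] at hi
            rcases mul_eq_zero.1 hi.symm with h | h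
            · exact absurd h (sg_ne _)
            · linarith
          · exact h
        have h1 := (sg_inj hy (hya.trans_le z0) hi).2
        have h2 := y3 (le_antisymm y1 (h1 ▸ z0))
        refine ⟨Or.inl h2, Or.inl ?_⟩
        rw [h2, N.s0.1] at hr
        exact w2 (sg_inj hxa (hxa.trans_le w0) hr).2.symm
    · -- cap, cap
      simp only [net, Pd.refl] at hr hi
      have a1 := (N.c_y hp).1
      have a2 := (N.c_y hq).1
      have := (sg_inj (hya.trans_le a1) (hya.trans_le a2) hi).1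
      exact absurd (by rw [this]) hij
    · -- cap, arm
      simp only [net, Pd.refl] at hr hi
      obtain ⟨w0, w1, w2, w3⟩ := N.c_x hp
      obtain ⟨v0, v1, v2⟩ := N.a_x hq
      cases σ'
      · simp only [sg, cond_true, cond_false] at hr
        have e : Pa.x t q = xa := by linarith
        exact ⟨Or.inr (w3 (by linarith)), Or.inl (v2 e)⟩
      · simp only [sg, cond_true] at hr
        have e : Pa.x t q = xa := by linarith
        exact ⟨Or.inl (w2 (by linarith)), Or.inl (v2 e)⟩
    · -- arm, arm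
      simp only [net, Pd.refl] at hr hi
      have a1 := (N.a_y hp).1
      have a2 := (N.a_y hq).1
      have b1 := (N.a_x hp).1
      have b2 := (N.a_x hq).1
      have c1 := (sg_inj (hya.trans_le a1) (hya.trans_le a2) hi).1
      have c2 := (sg_inj (hxa.trans_le b1) (hxa.trans_le b2) hr).1
      exact absurd (by rw [c1, c2]) hij
  have swap : ∀ {P Q : Prop}, P ∧ Q → Q ∧ P := fun h => ⟨h.2, h.1⟩
  rcases i with (_ | ⟨σ, τ⟩ | τ | ⟨σ, τ⟩)
  · exact key _ _ hij hp hq hr hi (Or.inl (Or.inl rfl))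
  · exact key _ _ hij hp hq hr hi (Or.inl (Or.inr ⟨σ, τ, rfl⟩))
  · rcases j with (_ | ⟨σ', τ'⟩ | τ' | ⟨σ', τ'⟩)
    · exact swap (key _ _ hij.symm hq hp hr.symm hi.symm (Or.inl (Or.inl rfl)))
    · exact swap (key _ _ hij.symm hq hp hr.symm hi.symm (Or.inl (Or.inr ⟨σ', τ', rfl⟩)))
    · exact key _ _ hij hp hq hr hi (Or.inr (Or.inl ⟨⟨τ, rfl⟩, Or.inl ⟨τ', rfl⟩⟩))
    · exact key _ _ hij hp hq hr hi (Or.inr (Or.inl ⟨⟨τ, rfl⟩, Or.inr ⟨σ', τ', rfl⟩⟩))
  · rcases j with (_ | ⟨σ', τ'⟩ | τ' | ⟨σ', τ'⟩)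
    · exact swap (key _ _ hij.symm hq hp hr.symm hi.symm (Or.inl (Or.inl rfl)))
    · exact swap (key _ _ hij.symm hq hp hr.symm hi.symm (Or.inl (Or.inr ⟨σ', τ', rfl⟩)))
    · exact swap (key _ _ hij.symm hq hp hr.symm hi.symm (Or.inr (Or.inl ⟨⟨τ', rfl⟩,
        Or.inr ⟨σ, τ, rfl⟩⟩)))
    · exact key _ _ hij hp hq hr hi (Or.inr (Or.inr ⟨⟨σ, τ, rfl⟩, ⟨σ', τ', rfl⟩⟩))

lemma NS.inj (i : Arc) : InjOn ((net Ps Pc Pa Pb i).c t) (Icc 0 1) := by
  intro p hp q hq hz
  have hr := congrArg Complex.re hz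
  have hi := congrArg Complex.im hz
  rw [c_re, c_re] at hr
  rw [c_im, c_im] at hi
  obtain ⟨hxb, hxb2⟩ := N.xb0
  rcases i with (_ | ⟨σ, τ⟩ | τ | ⟨σ, τ⟩)
  · simp only [net] at hr
    rw [(N.b0 p).1, (N.b0 q).1] at hr
    have := mul_right_cancel₀ hxb.ne' hr
    linarith
  · exact N.s_anti.injOn hp hq (sg_mul_eq hi)
  · exact N.c_anti.injOn hp hq (sg_mul_eq hr)
  · exact N.a_mono.injOn hp hq (sg_mul_eq hr)

lemma NS.conn : IsConnected (⋃ i, (net Ps Pc Pa Pb i).c t '' Icc 0 1) := by
  have z0 : (0:ℝ) ∈ Icc (0:ℝ) 1 := ⟨le_refl _, zero_le_one⟩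
  have z1 : (1:ℝ) ∈ Icc (0:ℝ) 1 := ⟨zero_le_one, le_refl _⟩
  have : Nonempty Arc := ⟨.bar⟩
  set r : Arc → Arc → Prop := fun i j =>
    ((net Ps Pc Pa Pb i).c t '' Icc 0 1 ∩ (net Ps Pc Pa Pb j).c t '' Icc 0 1).Nonempty with hr
  have symm : ∀ i j, r i j → r j i := fun i j h => by
    simp only [hr] at h ⊢
    rwa [inter_comm]
  -- ends with the same label
  have ends : ∀ e e' : Arc × Bool, lab e = lab e' → r e.1 e'.1 := by
    intro e e' h
    have h1 := (N.endpt_iff e' e).2 h
    have m : ∀ e : Arc × Bool, endpt (fun i => (net Ps Pc Pa Pb i).c t) e ∈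
        (net Ps Pc Pa Pb e.1).c t '' Icc 0 1 := by
      rintro ⟨i, β⟩
      cases β
      · exact ⟨0, z0, rfl⟩
      · exact ⟨1, z1, rfl⟩
    exact ⟨_, m e, h1 ▸ m e'⟩
  have b1 : ∀ i, Relation.ReflTransGen r .bar i := by
    have s : ∀ σ τ, Relation.ReflTransGen r .bar (.short σ τ) := fun σ τ =>
      Relation.ReflTransGen.single (ends (.bar, σ) (.short σ τ, true) rfl)
    intro i
    rcases i with (_ | ⟨σ, τ⟩ | τ | ⟨σ, τ⟩)
    · exact Relation.ReflTransGen.refl
    · exact s σ τ
    · exact (s true τ).tail (ends (.short true τ, false) (.cap τ, false) rfl)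
    · exact (s σ τ).tail (ends (.short σ τ, false) (.arm σ τ, false) rfl)
  have b2 : ∀ i, Relation.ReflTransGen r i .bar := by
    have s : ∀ σ τ, r (.short σ τ) .bar := fun σ τ => symm _ _ (ends (.bar, σ) (.short σ τ, true) rfl)
    intro i
    rcases i with (_ | ⟨σ, τ⟩ | τ | ⟨σ, τ⟩)
    · exact Relation.ReflTransGen.refl
    · exact Relation.ReflTransGen.single (s σ τ)
    · exact (Relation.ReflTransGen.single (ends (.cap τ, false) (.short true τ, false) rfl)).tail
        (s true τ)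
    · exact (Relation.ReflTransGen.single (ends (.arm σ τ, false) (.short σ τ, false) rfl)).tail
        (s σ τ)
  refine IsConnected.iUnion_of_reflTransGen (fun i => ?_) (fun i j => (b2 i).trans (b1 j))
  refine (isConnected_Icc zero_le_one).image _ ?_
  exact fun p hp => ((N.net_sl i).hc hp).continuousWithinAt

theorem NS.regular : IsRegularNetwork (Metric.ball (0:ℂ) √(R ^ 2 + h ^ 2))
    (fun i => (net Ps Pc Pa Pb i).c t) := by
  classical
  refine ⟨fun i => (N.net_sl i).cd2, fun i p hp => (N.net_sl i).ne hp, N.inj,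
    fun i p hp => N.mem_cl i hp, fun i p hp => N.mem_op i hp, N.conn, fun i j hij p hp q hq h => N.meet1 i j hij hp hq h,
    fun e => ?_, fun e he => ?_⟩
  · by_cases hv : (lab e).inn
    · left
      refine ⟨N.inn_iff e hv, ?_⟩
      rw [N.endsAt_eq]
      generalize lab e = v at hv
      cases v with
      | a σ τ => rw [fib_a]; rw [Finset.card_insert_of_notMem (by simp),
          Finset.card_insert_of_notMem (by simp), Finset.card_singleton]
      | b σ => rw [fib_b]; rw [Finset.card_insert_of_notMem (by simp),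
          Finset.card_insert_of_notMem (by simp), Finset.card_singleton]
      | e σ τ => exact absurd hv id
    · right
      refine ⟨N.out_iff e hv, ?_⟩
      rw [N.endsAt_eq]
      generalize lab e = v at hv
      cases v with
      | a σ τ => exact absurd trivial hv
      | b σ => exact absurd trivial hv
      | e σ τ => rw [fib_e, Finset.card_singleton]
  · by_cases hv : (lab e).inn
    · rw [N.endsAt_eq]
      generalize lab e = v at hv
      cases v with
      | a σ τ => rw [fib_a]; exact N.sum_a σ τ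
      | b σ => rw [fib_b]; exact N.sum_b σ
      | e σ τ => exact absurd hv id
    · exfalso
      have h1 := N.out_iff e hv
      rw [frontier_ball _ (rB_pos N.hh).ne', mem_sphere_zero_iff_norm] at h1
      rw [mem_ball_zero_iff] at he
      exact absurd h1 he.ne

end

end Run7.h661z
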