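import Pool.Agent.Run7.h661.Z.Piece
import Pool.Agent.Run7.h661.X.Cap2
import Pool.Agent.Run7.h661.X.Start

/-!
# The pieces of the flow, including the initial time
-/

open Set Filter Topology
open scoped Real ContDiff

namespace Run7.h661z

open Run7.h661x
open Run7.h661y (cang cang0 cang1 cang2)

/-- glue initial data and a flow -/
noncomputable def Pd.gl (Q P : Pd) : Pd where
  ro := fun t p => if t ≤ 0 then Q.ro 0 p else P.ro t p
  rp := fun t p => if t ≤ 0 then Q.rp 0 p else P.rp t p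
  al := fun t p => if t ≤ 0 then Q.al 0 p else P.al t p
  k := fun t p => if t ≤ 0 then Q.k 0 p else P.k t p
  lm := fun t p => if t ≤ 0 then Q.lm 0 p else P.lm t p
  x := fun t p => if t ≤ 0 then Q.x 0 p else P.x t p
  y := fun t p => if t ≤ 0 then Q.y 0 p else P.y t p

lemma Pd.Sl.gl0 {P Q : Pd} (S : Q.Sl 0) : (Q.gl P).Sl 0 := by
  have e : ∀ (f h : ℝ → ℝ → ℝ), (fun p => if (0:ℝ) ≤ 0 then f 0 p else h 0 p) = f 0 := fun f h => by
    funext p; rw [if_pos (le_refl _)]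
  refine ⟨?_, ?_, ?_, ?_, ?_, ?_, ?_⟩
  · intro p hp
    simpa [Pd.gl] using S.pos p hp
  · intro p hp
    have := S.px p hp
    simp only [Pd.gl, e, if_pos (le_refl (0:ℝ))]
    exact this
  · intro p hp
    have := S.py p hp
    simp only [Pd.gl, e, if_pos (le_refl (0:ℝ))]
    exact this
  · intro p hp
    have := S.pr p hp
    simp only [Pd.gl, e, if_pos (le_refl (0:ℝ))]
    exact this
  · intro p hp
    have := S.pal p hp
    simp only [Pd.gl, e, if_pos (le_refl (0:ℝ))]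
    exact this
  · have := S.crp
    simp only [Pd.gl, if_pos (le_refl (0:ℝ))]
    exact this
  · have := S.ck
    simp only [Pd.gl, if_pos (le_refl (0:ℝ))]
    exact this

lemma Pd.Sl.glt {P Q : Pd} {t : ℝ} (ht : 0 < t) (S : P.Sl t) : (Q.gl P).Sl t := by
  have h : ¬ t ≤ 0 := not_le.2 ht
  refine ⟨?_, ?_, ?_, ?_, ?_, ?_, ?_⟩
  · intro p hp
    simpa only [Pd.gl, if_neg h] using S.pos p hp
  · intro p hp
    simpa only [Pd.gl, if_neg h] using S.px p hp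
  · intro p hp
    simpa only [Pd.gl, if_neg h] using S.py p hp
  · intro p hp
    simpa only [Pd.gl, if_neg h] using S.pr p hp
  · intro p hp
    simpa only [Pd.gl, if_neg h] using S.pal p hp
  · simpa only [Pd.gl, if_neg h] using S.crp
  · simpa only [Pd.gl, if_neg h] using S.ck

lemma Pd.Mv.glt {P Q : Pd} {t : ℝ} (ht : 0 < t) (M : P.Mv t) : (Q.gl P).Mv t := by
  have h : ¬ t ≤ 0 := not_le.2 ht
  have hev : ∀ᶠ s in 𝓝 t, ¬ s ≤ 0 := by
    filter_upwards [lt_mem_nhds ht] with s hs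
    exact not_le.2 hs
  refine ⟨fun p hp => ?_, fun p hp => ?_⟩
  · have := M.tx p hp
    simp only [Pd.gl, if_neg h]
    refine this.congr_of_eventuallyEq ?_
    filter_upwards [hev] with s hs
    rw [if_neg hs]
  · have := M.ty p hp
    simp only [Pd.gl, if_neg h]
    refine this.congr_of_eventuallyEq ?_
    filter_upwards [hev] with s hs
    rw [if_neg hs]

lemma gl_contOn {T : ℝ} {F : ℝ → ℝ → ℝ} {F0 : ℝ → ℝ} (hF : UC F F0)
    (hc : ContinuousOn (fun q : ℝ × ℝ => F q.1 q.2) (Ioo 0 T ×ˢ Icc 0 1)) :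
    ContinuousOn (fun q : ℝ × ℝ => if q.1 ≤ 0 then F0 q.2 else F q.1 q.2) (Ico 0 T ×ˢ Icc 0 1) :=
  hF.contOn (G := fun t p => if t ≤ 0 then F0 p else F t p) hc
    (fun t ht p _ => by rw [if_neg (not_le.2 ht.1)]) (fun p _ => by rw [if_pos (le_refl _)])

lemma gl_smooth {T : ℝ} {F : ℝ → ℝ → ℝ} {F0 : ℝ → ℝ}
    (hc : ContDiffOn ℝ ∞ (fun q : ℝ × ℝ => F q.1 q.2) (Ioo 0 T ×ˢ Icc 0 1)) :
    ContDiffOn ℝ ∞ (fun q : ℝ × ℝ => if q.1 ≤ 0 then F0 q.2 else F q.1 q.2)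
      (Ioo 0 T ×ˢ Icc 0 1) :=
  hc.congr (fun q hq => by rw [if_neg (not_le.2 hq.1.1)])

theorem Fl_gl {P Q : Pd} {T : ℝ} (S0 : Q.Sl 0) (S : ∀ t ∈ Ioo 0 T, P.Sl t)
    (M : ∀ t ∈ Ioo 0 T, P.Mv t)
    (sx : ContDiffOn ℝ ∞ (fun q : ℝ × ℝ => P.x q.1 q.2) (Ioo 0 T ×ˢ Icc 0 1))
    (sy : ContDiffOn ℝ ∞ (fun q : ℝ × ℝ => P.y q.1 q.2) (Ioo 0 T ×ˢ Icc 0 1))
    (cr : ContinuousOn (fun q : ℝ × ℝ => P.ro q.1 q.2) (Ioo 0 T ×ˢ Icc 0 1))
    (cal : ContinuousOn (fun q : ℝ × ℝ => P.al q.1 q.2) (Ioo 0 T ×ˢ Icc 0 1))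
    (ux : UC P.x (Q.x 0)) (uy : UC P.y (Q.y 0)) (ur : UC P.ro (Q.ro 0)) (ua : UC P.al (Q.al 0)) :
    (Q.gl P).Fl T := by
  refine ⟨fun t ht => ?_, fun t ht => (M t ht).glt ht.1, gl_smooth sx, gl_smooth sy,
    gl_contOn ux sx.continuousOn, gl_contOn uy sy.continuousOn, gl_contOn ur cr, gl_contOn ua cal⟩
  rcases eq_or_lt_of_le ht.1 with h | h
  · rw [← h]; exact S0.gl0
  · exact (S t ⟨h, ht.2⟩).glt h

/-! ### uniform convergence -/

lemma UC.comp_cont {F : ℝ → ℝ → ℝ} {F0 : ℝ → ℝ} (hF : UC F F0) {φ : ℝ → ℝ} (hφ : Continuous φ) :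
    UC (fun t p => φ (F t p)) (fun p => φ (F0 p)) := by
  refine ⟨hφ.comp_continuousOn hF.cont, fun ε hε => ?_⟩
  obtain ⟨C, hC0, hC⟩ := hF.bdd
  have hu := (isCompact_Icc (a := -C - 1) (b := C + 1)).uniformContinuousOn_of_continuous
    hφ.continuousOn
  rw [Metric.uniformContinuousOn_iff] at hu
  obtain ⟨δ, hδ, hu⟩ := hu ε hε
  filter_upwards [hF.lim (min (δ / 2) 1) (lt_min (by positivity) one_pos)] with t h1 p hp
  have a1 := (h1 p hp).trans (min_le_left _ _)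
  have a2 := (h1 p hp).trans (min_le_right _ _)
  have a3 := abs_le.1 (hC p hp)
  have a4 := abs_le.1 a2
  have := hu (F t p) ⟨by linarith, by linarith⟩ (F0 p) ⟨by linarith, by linarith⟩ (by
    rw [Real.dist_eq]; linarith)
  rw [Real.dist_eq] at this
  exact this.le

lemma UC_pp {L0 L1 : ℝ → ℝ} {l0 l1 : ℝ} (h0 : Tendsto L0 (𝓝[>] 0) (𝓝 l0))
    (h1 : Tendsto L1 (𝓝[>] 0) (𝓝 l1)) (hl : 0 < l0) :
    UC (fun t q => Pf (L0 t) (L1 t) q) (fun q => Pf l0 l1 q) := by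
  have u0 := UC.of_t h0
  have u1 := UC.of_t h1
  have uq : UC (fun _ q => q) (fun q : ℝ => q) := UC.of_p continuousOn_id
  have ur : UC (fun t q => Rf (L0 t) (L1 t) q) (fun q => Rf l0 l1 q) := by
    have h := ((u0.mul u0).add ((((UC.const 4).mul (u1.sub u0)).mul u1).mul uq))
    have h2 := UC.comp_cont h Real.continuous_sqrt
    refine h2.congr (Eventually.of_forall (fun t q _ => ?_)) (fun q _ => ?_)
    · rw [Rf]; congr 1; ring
    · rw [Rf]; congr 1; ring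
  have ui := UC.comp_cont (u0.add ur) (φ := fun x => (max x (l0 / 2))⁻¹) (by
    refine Continuous.inv₀ (by fun_prop) (fun x => ?_)
    have : 0 < max x (l0 / 2) := lt_max_of_lt_right (by positivity)
    exact this.ne')
  have h := (((UC.const 2).mul u1).mul uq).mul ui
  refine h.congr ?_ (fun q _ => ?_)
  · filter_upwards [h0.eventually (lt_mem_nhds (half_lt_self hl))] with t ht q _
    have : l0 / 2 ≤ L0 t + Rf (L0 t) (L1 t) q := by
      have : 0 ≤ Rf (L0 t) (L1 t) q := Real.sqrt_nonneg _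
      linarith
    rw [Pf, max_eq_left this, div_eq_mul_inv]
  · have : l0 / 2 ≤ l0 + Rf l0 l1 q := by
      have : 0 ≤ Rf l0 l1 q := Real.sqrt_nonneg _
      linarith
    rw [Pf, max_eq_left this, div_eq_mul_inv]

/-! ### the pieces -/

/-- an edge of the quarter -/
noncomputable def edP (a : AFd) (i : Fin 3) : Pd where
  ro := a.ro i
  rp := fun t _ => 2 * (a.L i t - a.L 0 t)
  al := a.al i
  k := a.k i
  lm := a.lm i
  x := a.X i
  y := a.Y i

/-- the cap -/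
noncomputable def caP (a : AFd) (κ : ℝ → ℝ → ℝ) : Pd where
  ro := fun t _ => 2 * a.L 1 t
  rp := fun _ _ => 0
  al := a.cAl
  k := κ
  lm := a.cLm
  x := a.cX
  y := a.cY

/-- the bar -/
noncomputable def baP (a : AFd) : Pd where
  ro := fun t _ => 2 * a.X 0 t 1
  rp := fun _ _ => 0
  al := fun _ _ => 0
  k := fun _ _ => 0
  lm := fun t p => (2 * p - 1) * a.ux 0 t 1
  x := fun t p => (2 * p - 1) * a.X 0 t 1
  y := fun _ _ => 0

lemma ll_pos : 0 < ll 0 ∧ 0 < 2 * ll 1 - ll 0 := by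
  have h1 := ll0_pos
  have h2 := ll0_small
  have h3 := ll1_bounds.1
  have h4 : hh = 1 / 10000 := rfl
  rw [h4] at h2
  constructor <;> linarith

lemma ro_pos0 (i : Fin 3) {p : ℝ} (hp : p ∈ Icc (0:ℝ) 1) : 0 < a0.ro i 0 p := by
  have h1 := ll0_pos
  have h2 := ll0_small
  have h3 := ll1_bounds.1
  have h4 : hh = 1 / 10000 := rfl
  have h5 := ll2_bounds.1
  rw [h4] at h2
  obtain ⟨p0, p1⟩ := hp
  fin_cases i
  · simp only [Fin.zero_eta, a0_ro0]; exact h1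
  · show 0 < ll 0 + 2 * p * (ll 1 - ll 0)
    have : 0 ≤ 2 * p * (ll 1 - ll 0) := mul_nonneg (by linarith) (by linarith)
    linarith
  · show 0 < ll 0 + 2 * p * (ll 2 - ll 0)
    have : 0 ≤ 2 * p * (ll 2 - ll 0) := mul_nonneg (by linarith) (by linarith)
    linarith

lemma pX0 (i : Fin 3) {p : ℝ} (hp : p ∈ Icc (0:ℝ) 1) :
    HasDerivWithinAt (a0.X i 0) (a0.tx i 0 p) (Icc 0 1) p ∧
    HasDerivWithinAt (a0.Y i 0) (a0.ty i 0 p) (Icc 0 1) p := by
  have key : ∀ f : ℝ → ℝ, Continuous f →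
      HasDerivWithinAt (fun p => PI clamp (fun _ p => f p) 0 p) (f p) (Icc 0 1) p := by
    intro f hf
    have hc : ContinuousOn (fun q : ℝ × ℝ => f q.2) (Ioo 0 1 ×ˢ Icc (0:ℝ) 1) :=
      (hf.comp continuous_snd).continuousOn
    exact PI_deriv (T := 1) (F := fun _ p => f p) dom_I hc (t := 1 / 2)
      ⟨by norm_num, by norm_num⟩ hp
  constructor
  · exact (key _ (ctx0 i).1).const_add _
  · exact (key _ (ctx0 i).2).const_add _

lemma a0_sl (i : Fin 3) (hi : i ≠ 1) : (edP a0 i).Sl 0 := by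
  refine ⟨fun p hp => ro_pos0 i hp, fun p hp => (pX0 i hp).1, fun p hp => (pX0 i hp).2,
    fun p hp => ?_, fun p hp => ?_, continuousOn_const, ?_⟩
  · have h1 : HasDerivAt (fun p : ℝ => 2 * p * (ll i - ll 0)) (2 * 1 * (ll i - ll 0)) p :=
      ((hasDerivAt_id' p).const_mul 2).mul_const _
    have h2 := h1.const_add (ll 0)
    rw [mul_one] at h2
    exact h2.hasDerivWithinAt
  · have e : ∀ q, a0.al i 0 q = cang i := by
      intro q
      show cang i + tt i q = cang i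
      fin_cases i
      · simp [tt0]
      · exact absurd rfl hi
      · show cang 2 + tt 2 q = cang 2
        rw [tt2, add_zero]
    have : HasDerivWithinAt (a0.al i 0) 0 (Icc 0 1) p :=
      (hasDerivWithinAt_const p (Icc (0:ℝ) 1) (cang i)).congr (fun q _ => e q) (e p)
    refine this.congr_deriv ?_
    show (0:ℝ) = _ * a0.k i 0 p
    simp [AFd.k, a0]
  · have : (edP a0 i).k 0 = fun _ => 0 := by
      funext p
      show a0.k i 0 p = 0
      simp [AFd.k, a0]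
    rw [this]
    exact continuousOn_const

section
variable {g : Fin 3 → ℝ → ℝ → ℂ} {a : AFd} {T1 : ℝ} (S : St T1 a g)
include S

lemma ed_sl (i : Fin 3) {t : ℝ} (ht : t ∈ Ioo 0 T1) : (edP a i).Sl t := by
  have A := S.A
  have hs : ∀ {F : ℝ → ℝ → ℝ}, RG T1 (Icc 0 1) 0 0 F → ContinuousOn (F t) (Icc 0 1) := by
    intro F hF
    have h1 : ContinuousOn (fun q : ℝ × ℝ => F q.1 q.2) (Ioo 0 T1 ×ˢ Icc 0 1) := hF.ct.cont
    exact ContinuousOn.comp (g := fun q : ℝ × ℝ => F q.1 q.2) (f := fun p => (t, p)) h1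
      (by fun_prop) (fun p hp => ⟨ht, hp⟩)
  refine ⟨fun p hp => A.pos i t ht p hp, fun p hp => A.pX i ht hp, fun p hp => A.pY i ht hp,
    fun p hp => (A.pro i t p).hasDerivWithinAt, fun p hp => ?_, continuousOn_const, hs (A.rk i 0 0)⟩
  refine (A.pal i ht hp).congr_deriv ?_
  rw [A.D_eq i ht hp, mul_comm]
  rfl

lemma ed_fl (i : Fin 3) (hi : i ≠ 1) : ((edP a0 i).gl (edP a i)).Fl T1 := by
  have A := S.A
  refine Fl_gl (a0_sl i hi) (fun t ht => ed_sl S i ht) (fun t ht => ⟨fun p hp => A.tX i ht hp,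
    fun p hp => A.tY i ht hp⟩) ?_ ?_ (A.rro i 0 0).ct.cont ?_ (S.uX i) (S.uY i) (S.uro i) (S.ual i)
  · exact contDiffOn_infty_of_RGA (F := a.X i) dom_I (fun n m => (A.rX i m n).1)
  · exact contDiffOn_infty_of_RGA (F := a.Y i) dom_I (fun n m => (A.rX i m n).2)
  · exact ((RG.const (cang i) 0 0).add (A.reg 0 i 0).1).ct.cont

/-- initial curvature of the cap -/
lemma a0_cap_sl : (caP a0 (fun _ _ => 1 / rc)).Sl 0 := by
  have hrc := rc_pos
  obtain ⟨l0, l1⟩ := ll_pos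
  have e : ∀ p, (fun q => (fun _ : ℝ => 1 / rc) (Pf (ll 0) (ll 1) q)) p = 1 / rc := fun _ => rfl
  have key := fun p (hp : p ∈ Icc (0:ℝ) 1) => cap_slice l0 l1 (th := tt 1) (kk := fun _ => 1 / rc)
    (X := a0.X 1 0) (Y := a0.Y 1 0) (fun q hq => ((dsl q).div_const rc).hasDerivWithinAt.congr_deriv
      (by show _ = (ll 0 + 2 * q * (ll 1 - ll 0)) * (1 / rc); rw [div_eq_mul_one_div]; rfl))
    (fun q hq => (pX0 1 hq).1.congr_deriv (by rw [AFd.tx, AFd.al, cang1]; rfl))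
    (fun q hq => (pX0 1 hq).2.congr_deriv (by rw [AFd.ty, AFd.al, cang1]; rfl))
    (by rw [tt1, sl_one, ll1]; field_simp) hp
  refine ⟨fun p hp => ?_, fun p hp => (key p hp).2.1, fun p hp => (key p hp).2.2,
    fun p hp => hasDerivWithinAt_const _ _ _, fun p hp => (key p hp).1.congr_deriv ?_,
    continuousOn_const, continuousOn_const⟩
  · show 0 < 2 * ll 1
    linarith
  · show _ = 2 * ll 1 * (1 / rc)
    rw [fe]; ring

lemma cap_sl {t : ℝ} (ht : t ∈ Ioo 0 T1) : (caP a a.cK).Sl t := by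
  have A := S.A
  have hs : ∀ {F : ℝ → ℝ → ℝ}, RG T1 (Icc 0 1) 0 0 F → ContinuousOn (F t) (Icc 0 1) := by
    intro F hF
    have h1 : ContinuousOn (fun q : ℝ × ℝ => F q.1 q.2) (Ioo 0 T1 ×ˢ Icc 0 1) := hF.ct.cont
    exact ContinuousOn.comp (g := fun q : ℝ × ℝ => F q.1 q.2) (f := fun p => (t, p)) h1
      (by fun_prop) (fun p hp => ⟨ht, hp⟩)
  refine ⟨fun p hp => ?_, fun p hp => (A.pcap ht hp).2.1, fun p hp => (A.pcap ht hp).2.2,
    fun p hp => hasDerivWithinAt_const _ _ _, fun p hp => (A.pcap ht hp).1,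
    continuousOn_const, hs (A.creg 0 0).2.1⟩
  obtain ⟨l0, l1⟩ := A.L0pos ht
  show 0 < 2 * a.L 1 t
  linarith

lemma UC_fo {F : ℝ → ℝ → ℝ} {F0 : ℝ → ℝ} (hF : UC F F0) : UC (fun t => fo (F t)) (fo F0) :=
  ((hF.comp_p m1_cont.continuousOn (fun _ hp => m1_mem hp)).sub
    (hF.comp_p m2_cont.continuousOn (fun _ hp => m2_mem hp))).congr
    (Eventually.of_forall (fun _ _ _ => rfl)) (fun _ _ => rfl)

lemma UC_fe {F : ℝ → ℝ → ℝ} {F0 : ℝ → ℝ} (hF : UC F F0) : UC (fun t => fe (F t)) (fe F0) :=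
  (((hF.comp_p m1_cont.continuousOn (fun _ hp => m1_mem hp)).add
    (hF.comp_p m2_cont.continuousOn (fun _ hp => m2_mem hp))).sub
    (UC.of_t (hF.at_p ⟨zero_le_one, le_refl _⟩))).congr
    (Eventually.of_forall (fun _ _ _ => rfl)) (fun _ _ => rfl)

lemma UC_cpp {F : ℝ → ℝ → ℝ} {F0 : ℝ → ℝ} (hF : UC F F0) :
    UC (fun t q => F t (a.pp t q)) (fun q => F0 (Pf (ll 0) (ll 1) q)) := by
  obtain ⟨l0, l1⟩ := ll_pos
  refine hF.comp (P := a.pp) (P0 := fun q => Pf (ll 0) (ll 1) q) (UC_pp (S.uL 0) (S.uL 1) l0) ?_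
    (fun p hp => Pf_mem l0 l1 hp)
  filter_upwards [S.ev] with t ht p hp
  exact S.A.pp_mem ht hp

lemma cap_fl : ((caP a0 (fun _ _ => 1 / rc)).gl (caP a a.cK)).Fl T1 := by
  have A := S.A
  refine Fl_gl (a0_cap_sl S) (fun t ht => cap_sl S ht) (fun t ht => ⟨fun p hp => A.tcX ht hp,
    fun p hp => A.tcY ht hp⟩) ?_ ?_ ?_ ?_ ?_ ?_ ?_ ?_
  · exact contDiffOn_infty_of_RGA (F := a.cX) dom_I (fun n m => (A.rcXY m n).1)
  · exact contDiffOn_infty_of_RGA (F := a.cY) dom_I (fun n m => (A.rcXY m n).2)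
  · exact ((RG.const 2 0 0).mul (A.rL 1 0 0)).ct.cont
  · exact ((RG.const π 0 0).add (A.creg 0 0).1).ct.cont
  · exact UC_fo S (UC_cpp S (S.uX 1))
  · exact UC_fe S (UC_cpp S (S.uY 1))
  · exact (UC.const 2).mul (UC.of_t (S.uL 1))
  · exact (UC.const π).add (UC_fo S (UC_cpp S (S.u 1)))

end

end Run7.h661z
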