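import Pool.Agent.Run7.h661.Z.Net
import Pool.Agent.Run7.h661.Z.Glue
import Pool.Agent.Run7.h661.X.Unif

/-!
# The network flow
-/

open Set Filter Topology
open scoped Real ContDiff

namespace Run7.h661z

open Run7.h661x
open Run7.h661y (cang cang0 cang1 cang2)

/-- the pieces of a flow of angles at the time `t` -/
lemma NS0_of {a : AFd} {t : ℝ} {κ : ℝ → ℝ → ℝ} (hs : (edP a 0).Sl t) (hc : (caP a κ).Sl t)
    (ha : (edP a 2).Sl t) (sec : ∀ i, ∀ p ∈ Icc (0:ℝ) 1, 0 ≤ a.th i t p ∧ a.th i t p ≤ π / 3)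
    (jth : ∀ i, a.th i t 0 = a.th 0 t 0) (e0 : a.th 0 t 1 = 0) (e1 : a.th 1 t 1 = π / 3)
    (h0 : 0 < a.L 0 t) (h1 : 0 < 2 * a.L 1 t - a.L 0 t) (hP : a.X 2 t 1 = RR ∧ a.Y 2 t 1 = hh)
    (hya : 0 < a.Y 0 t 0) (hyx : a.Y 0 t 0 < a.X 0 t 0) (hxs : a.X 0 t 0 ≤ 2) :
    NS0 (edP a 0) (caP a κ) (edP a 2) t RR hh (a.X 0 t 0) (a.Y 0 t 0) (a.th 0 t 0) (a.X 0 t 1) := by
  have hX0 : ∀ i, a.X i t 0 = a.X 0 t 0 := fun i => by simp only [AFd.X, PI_zero]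
  have hY0 : ∀ i, a.Y i t 0 = a.Y 0 t 0 := fun i => by simp only [AFd.Y, PI_zero]
  have hX1 : a.X 1 t 1 = 0 := by rw [AFd.X]; ring
  have hY1 : a.Y 0 t 1 = 0 := by rw [AFd.Y]; ring
  have p0 : a.pp t 0 = 0 := Pf_zero _ _
  have p1 : a.pp t 1 = 1 := Pf_one h0 h1
  have q0 : (2:ℝ) * 0 = 0 := by norm_num
  have q1 : (2:ℝ) - 2 * 1 = 0 := by norm_num
  have al_l : ∀ p, p ≤ 1 / 2 → a.cAl t p = a.al 1 t (a.pp t (2 * p)) := by
    intro p h
    rw [AFd.cAl, AFd.cTh, fo_left _ h, p1, e1, AFd.al, cang1]; ring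
  have al_r : ∀ p, 1 / 2 ≤ p → a.cAl t p = 2 * π - a.al 1 t (a.pp t (2 - 2 * p)) := by
    intro p h
    rw [AFd.cAl, AFd.cTh, fo_right _ h, p1, e1, AFd.al, cang1]; ring
  have hpi := Real.pi_pos
  have ppm : ∀ q ∈ Icc (0:ℝ) 1, a.pp t q ∈ Icc (0:ℝ) 1 := fun q hq => Pf_mem h0 h1 hq
  refine ⟨hs, hc, ha, ?_, ?_, ?_, ?_, ?_, hP, ?_, ?_, ?_, hya, hyx, hxs, by rw [RR]; norm_num,
    hh_pos⟩
  · exact ⟨rfl, rfl, by show cang 0 + a.th 0 t 0 = _; rw [cang0]⟩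
  · exact ⟨rfl, hY1, by show cang 0 + a.th 0 t 1 = _; rw [cang0, e0, add_zero]⟩
  · refine ⟨?_, ?_, ?_⟩
    · show fo (fun q => a.X 1 t (a.pp t q)) 0 = _
      rw [fo_left _ (by norm_num), q0, p0, p1, hX1, hX0 1, sub_zero]
    · show fe (fun q => a.Y 1 t (a.pp t q)) 0 = _
      rw [fe_left _ (by norm_num), q0, p0, hY0 1]
    · show a.cAl t 0 = _
      rw [al_l 0 (by norm_num), q0, p0, AFd.al, cang1, jth 1]
  · refine ⟨?_, ?_, ?_⟩
    · show fo (fun q => a.X 1 t (a.pp t q)) 1 = _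
      rw [fo_right _ (by norm_num), q1, p0, p1, hX1, hX0 1, zero_sub]
    · show fe (fun q => a.Y 1 t (a.pp t q)) 1 = _
      rw [fe_right _ (by norm_num), q1, p0, hY0 1]
    · show a.cAl t 1 = _
      rw [al_r 1 (by norm_num), q1, p0, AFd.al, cang1, jth 1]
  · refine ⟨hX0 2, hY0 2, ?_⟩
    show cang 2 + a.th 2 t 0 = _
    rw [cang2, jth 2, zero_add]
  · intro p hp
    show -(2 * π / 3) ≤ cang 0 + a.th 0 t p ∧ cang 0 + a.th 0 t p ≤ _
    have := sec 0 p hp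
    rw [cang0]
    constructor <;> linarith
  · intro p hp
    show 2 * π / 3 ≤ a.cAl t p ∧ a.cAl t p ≤ 4 * π / 3 ∧ (p ≤ 1 / 2 → a.cAl t p ≤ π) ∧
      (1 / 2 ≤ p → π ≤ a.cAl t p)
    have key : ∀ q ∈ Icc (0:ℝ) 1, 2 * π / 3 ≤ a.al 1 t (a.pp t q) ∧ a.al 1 t (a.pp t q) ≤ π := by
      intro q hq
      have := sec 1 _ (ppm q hq)
      rw [AFd.al, cang1]
      constructor <;> linarith
    have kl : p ≤ 1 / 2 → 2 * π / 3 ≤ a.cAl t p ∧ a.cAl t p ≤ π := by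
      intro h
      rw [al_l p h]
      exact key _ ⟨by linarith [hp.1], by linarith⟩
    have kr : 1 / 2 ≤ p → π ≤ a.cAl t p ∧ a.cAl t p ≤ 4 * π / 3 := by
      intro h
      rw [al_r p h]
      have := key (2 - 2 * p) ⟨by linarith [hp.2], by linarith⟩
      constructor <;> linarith
    refine ⟨?_, ?_, fun h => (kl h).2, fun h => (kr h).1⟩
    · rcases le_total p (1 / 2) with h | h
      · exact (kl h).1
      · linarith [(kr h).1]
    · rcases le_total p (1 / 2) with h | h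
      · linarith [(kl h).2]
      · exact (kr h).2
  · intro p hp
    show 0 ≤ cang 2 + a.th 2 t p ∧ cang 2 + a.th 2 t p ≤ _
    have := sec 2 p hp
    rw [cang2]
    constructor <;> linarith

lemma NS0_gl0 {Ps Pc Pa Qs Qc Qa : Pd} {R h xa ya φ xb : ℝ}
    (N : NS0 Ps Pc Pa 0 R h xa ya φ xb) :
    NS0 (Ps.gl Qs) (Pc.gl Qc) (Pa.gl Qa) 0 R h xa ya φ xb := by
  have e : ∀ {x y : ℝ}, (if (0:ℝ) ≤ 0 then x else y) = x := fun {x y} => if_pos (le_refl _)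
  obtain ⟨h1, h2, h3, h4, h5, h6, h7, h8, h9, h10, h11, h12, h13, h14, h15, h16, h17⟩ := N
  refine ⟨h1.gl0, h2.gl0, h3.gl0, ?_, ?_, ?_, ?_, ?_, ?_, ?_, ?_, ?_, h13, h14, h15, h16, h17⟩
  · simpa only [Pd.gl, e] using h4
  · simpa only [Pd.gl, e] using h5
  · simpa only [Pd.gl, e] using h6
  · simpa only [Pd.gl, e] using h7
  · simpa only [Pd.gl, e] using h8
  · simpa only [Pd.gl, e] using h9
  · simpa only [Pd.gl, e] using h10
  · simpa only [Pd.gl, e] using h11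
  · simpa only [Pd.gl, e] using h12

lemma NS0_glt {Ps Pc Pa Qs Qc Qa : Pd} {t R h xa ya φ xb : ℝ} (ht : 0 < t)
    (N : NS0 Qs Qc Qa t R h xa ya φ xb) :
    NS0 (Ps.gl Qs) (Pc.gl Qc) (Pa.gl Qa) t R h xa ya φ xb := by
  have e : ∀ {x y : ℝ}, (if t ≤ 0 then x else y) = y := fun {x y} => if_neg (not_le.2 ht)
  obtain ⟨h1, h2, h3, h4, h5, h6, h7, h8, h9, h10, h11, h12, h13, h14, h15, h16, h17⟩ := N
  refine ⟨h1.glt ht, h2.glt ht, h3.glt ht, ?_, ?_, ?_, ?_, ?_, ?_, ?_, ?_, ?_, h13, h14, h15, h16,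
    h17⟩
  · simpa only [Pd.gl, e] using h4
  · simpa only [Pd.gl, e] using h5
  · simpa only [Pd.gl, e] using h6
  · simpa only [Pd.gl, e] using h7
  · simpa only [Pd.gl, e] using h8
  · simpa only [Pd.gl, e] using h9
  · simpa only [Pd.gl, e] using h10
  · simpa only [Pd.gl, e] using h11
  · simpa only [Pd.gl, e] using h12

section
variable {g : Fin 3 → ℝ → ℝ → ℂ} {a : AFd} {T1 : ℝ} (S : St T1 a g)
include S

lemma NSt {t : ℝ} (ht : t ∈ Ioo 0 T1) : NS0 (edP a 0) (caP a a.cK) (edP a 2) t RR hh (a.X 0 t 0)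
    (a.Y 0 t 0) (a.th 0 t 0) (a.X 0 t 1) := by
  have A := S.A
  have hj := S.junc_eq ht 0
  have hc := S.hyp.concl_all ht
  refine NS0_of (ed_sl S 0 ht) (cap_sl S ht) (ed_sl S 2 ht) (fun i p hp => S.sec i t ht p hp)
    (fun i => A.jth t ht i 0) (A.e0 t ht).1 (A.e1 t ht).1 (A.L0pos ht).1 (A.L0pos ht).2
    (S.endp t ht) ?_ ?_ ?_
  · rw [hj.2]; exact S.qf.ya_pos ht (S.hyp.secAt ht)
  · rw [hj.1, hj.2]; exact hc.yx
  · rw [hj.1]; linarith [S.xa_up ht]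

omit S in
lemma x0_vals : a0.X 0 0 0 = x0 ∧ a0.Y 0 0 0 = hh ∧ a0.X 0 0 1 = x0 - ll 0 / 2 := by
  have z0 : (0:ℝ) ∈ Icc (0:ℝ) 1 := ⟨le_refl _, zero_le_one⟩
  have z1 : (1:ℝ) ∈ Icc (0:ℝ) 1 := ⟨zero_le_one, le_refl _⟩
  refine ⟨?_, ?_, ?_⟩
  · rw [(X0_0 z0).1]; ring
  · rw [(X0_0 z0).2]; ring
  · rw [(X0_0 z1).1]; ring

lemma NSz : NS0 (edP a0 0) (caP a0 (fun _ _ => 1 / rc)) (edP a0 2) 0 RR hh (a0.X 0 0 0)
    (a0.Y 0 0 0) (a0.th 0 0 0) (a0.X 0 0 1) := by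
  have z1 : (1:ℝ) ∈ Icc (0:ℝ) 1 := ⟨zero_le_one, le_refl _⟩
  have hrc := rc_pos
  obtain ⟨b1, b2⟩ := x0_bounds
  obtain ⟨v1, v2, v3⟩ := x0_vals
  have hh' : hh = 1 / 10000 := rfl
  refine NS0_of (a0_sl 0 (by decide)) (a0_cap_sl S) (a0_sl 2 (by decide))
    (fun i p hp => tt_mem i hp) ?_ rfl ?_ ll_pos.1 ll_pos.2 ?_ ?_ ?_ ?_
  · intro i
    show tt i 0 = tt 0 0
    fin_cases i
    · rfl
    · show tt 1 0 = tt 0 0
      rw [tt1, tt0, sl_zero, zero_div]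
    · show tt 2 0 = tt 0 0
      rw [tt2, tt0]
  · show tt 1 1 = π / 3
    rw [tt1, sl_one, ll1]; field_simp
  · rw [(X0_2 z1).1, (X0_2 z1).2, ll2]
    exact ⟨by ring, rfl⟩
  · rw [v2]; exact hh_pos
  · rw [v1, v2, hh']; linarith
  · rw [v1]; linarith

/-! ### the bar -/

omit S in
lemma ba_sl {a : AFd} {t : ℝ} (h : 0 < a.X 0 t 1) : (baP a).Sl t := by
  refine ⟨fun p hp => ?_, fun p hp => ?_, fun p hp => ?_, fun p hp => hasDerivWithinAt_const _ _ _,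
    fun p hp => ?_, continuousOn_const, continuousOn_const⟩
  · show 0 < 2 * a.X 0 t 1
    linarith
  · have h1 : HasDerivAt (fun p : ℝ => (2 * p - 1) * a.X 0 t 1) (2 * 1 * a.X 0 t 1) p :=
      (((hasDerivAt_id' p).const_mul 2).sub_const 1).mul_const _
    refine h1.hasDerivWithinAt.congr_deriv ?_
    show _ = 2 * a.X 0 t 1 * Real.cos 0
    rw [Real.cos_zero]; ring
  · refine (hasDerivWithinAt_const p (Icc (0:ℝ) 1) (0:ℝ)).congr_deriv ?_
    show _ = 2 * a.X 0 t 1 * Real.sin 0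
    rw [Real.sin_zero]; ring
  · refine (hasDerivWithinAt_const p (Icc (0:ℝ) 1) (0:ℝ)).congr_deriv ?_
    show _ = 2 * a.X 0 t 1 * 0
    ring

lemma ba_fl : ((baP a0).gl (baP a)).Fl T1 := by
  have A := S.A
  have z1 : (1:ℝ) ∈ Icc (0:ℝ) 1 := ⟨zero_le_one, le_refl _⟩
  have hX : ∀ m n, RG T1 (Icc 0 1) m n (fun t _ => a.X 0 t 1) := fun m n =>
    RG.of_t ((A.rX 0 m 0).1.ct.eval z1)
  have hx : ∀ m n, RG T1 (Icc 0 1) m n (fun t p => (2 * p - 1) * a.X 0 t 1) := fun m n =>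
    (((RG.const 2 m n).mul RG.id).sub (RG.const 1 m n)).mul (hX m n)
  have uX := (S.uX 0).at_p z1
  refine Fl_gl (ba_sl (NSz S).xb0.1) (fun t ht => ba_sl (NSt S ht).xb0.1)
    (fun t ht => ⟨fun p hp => ?_, fun p hp => ?_⟩) ?_ contDiffOn_const ?_ continuousOn_const ?_
    (UC.const 0) ?_ (UC.const 0)
  · refine ((A.tX 0 ht z1).const_mul (2 * p - 1)).congr_deriv ?_
    show _ = (2 * p - 1) * a.ux 0 t 1 * Real.cos 0 - 0 * Real.sin 0
    rw [Real.cos_zero]; ring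
  · refine (hasDerivAt_const t (0:ℝ)).congr_deriv ?_
    show _ = (2 * p - 1) * a.ux 0 t 1 * Real.sin 0 + 0 * Real.cos 0
    rw [Real.sin_zero]; ring
  · exact contDiffOn_infty_of_RGA (F := fun t p => (2 * p - 1) * a.X 0 t 1) dom_I
      (fun n m => hx m n)
  · exact ((RG.const 2 0 0).mul (hX 0 0)).ct.cont
  · exact (UC.of_p (f := fun p => 2 * p - 1) (by fun_prop)).mul (UC.of_t uX)
  · exact (UC.const 2).mul (UC.of_t uX)

end

/-! ### the network flow -/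

/-- the eleven pieces -/
noncomputable def NN (a : AFd) : Arc → Pd :=
  net ((edP a0 0).gl (edP a 0)) ((caP a0 (fun _ _ => 1 / rc)).gl (caP a a.cK))
    ((edP a0 2).gl (edP a 2)) ((baP a0).gl (baP a))

/-- radius of the disc -/
noncomputable def rB : ℝ := √(RR ^ 2 + hh ^ 2)

section
variable {g : Fin 3 → ℝ → ℝ → ℂ} {a : AFd} {T1 : ℝ} (S : St T1 a g)
include S

lemma NN_ns {t : ℝ} (ht : t ∈ Ico 0 T1) : ∃ xa ya φ xb,
    NS ((edP a0 0).gl (edP a 0)) ((caP a0 (fun _ _ => 1 / rc)).gl (caP a a.cK))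
    ((edP a0 2).gl (edP a 2)) ((baP a0).gl (baP a)) t RR hh xa ya φ xb := by
  rcases eq_or_lt_of_le ht.1 with h | h
  · rw [← h]
    refine ⟨_, _, _, _, NS0_gl0 (NSz S), (ba_sl (NSz S).xb0.1).gl0, fun p => ?_⟩
    have e : ∀ {x y : ℝ}, (if (0:ℝ) ≤ 0 then x else y) = x := fun {x y} => if_pos (le_refl _)
    simp only [Pd.gl, e, baP]
    exact ⟨trivial, trivial, trivial⟩
  · have ht' : t ∈ Ioo 0 T1 := ⟨h, ht.2⟩
    refine ⟨_, _, _, _, NS0_glt h (NSt S ht'), (ba_sl (NSt S ht').xb0.1).glt h, fun p => ?_⟩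
    have e : ∀ {x y : ℝ}, (if t ≤ 0 then x else y) = y := fun {x y} => if_neg (not_le.2 h)
    simp only [Pd.gl, e, baP]
    exact ⟨trivial, trivial, trivial⟩

lemma NN_fl (i : Arc) : (NN a i).Fl T1 := by
  cases i with
  | bar => exact ba_fl S
  | short σ τ => exact (ed_fl S 0 (by decide)).refl σ τ
  | cap τ => exact (cap_fl S).refl true τ
  | arm σ τ => exact (ed_fl S 2 (by decide)).refl σ τ

theorem NN_flow : IsNetworkFlow (Metric.ball (0:ℂ) rB) T1 (fun i => (NN a i).c) := by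
  refine ⟨fun i => (NN_fl S i).smooth, fun i => (NN_fl S i).cont, fun i => (NN_fl S i).cont_deriv,
    fun t ht => ?_, fun e t ht he => ?_, fun i t ht p hp => (NN_fl S i).motion ht hp⟩
  · obtain ⟨xa, ya, φ, xb, N⟩ := NN_ns S ht
    exact N.regular
  · have h0 : (0:ℝ) ∈ Ico 0 T1 := ⟨le_refl _, S.pos⟩
    obtain ⟨xa, ya, φ, xb, N⟩ := NN_ns S h0
    obtain ⟨xa', ya', φ', xb', N'⟩ := NN_ns S ht
    have hv : ¬ (lab e).inn := by
      intro hv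
      have h1 := N.inn_iff e hv
      have h2 : endpt (fun i => (NN a i).c 0) e ∈ Metric.sphere (0:ℂ) rB := by
        rw [← frontier_ball (0:ℂ) (rB_pos (R := RR) hh_pos).ne' (r := rB)]; exact he
      rw [mem_sphere_zero_iff_norm] at h2
      rw [mem_ball_zero_iff] at h1
      exact absurd h2 h1.ne
    obtain ⟨a1, a2⟩ := N.endpt_re e
    obtain ⟨b1, b2⟩ := N'.endpt_re e
    apply Complex.ext
    · refine b1.trans (Eq.trans ?_ a1.symm)
      generalize lab e = v at hv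
      cases v with
      | a σ τ => exact absurd trivial hv
      | b σ => exact absurd trivial hv
      | e σ τ => rfl
    · refine b2.trans (Eq.trans ?_ a2.symm)
      generalize lab e = v at hv
      cases v with
      | a σ τ => exact absurd trivial hv
      | b σ => exact absurd trivial hv
      | e σ τ => rfl

end

end Run7.h661z
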