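import Pool.Agent.Run7.h661.Z.Flow
import Pool.Agent.Run7.h661.X.Glob
import Pool.Agent.Run7.h661.Y.Concl

/-!
# The singular time and the blow-up
-/

open Set Filter Topology
open scoped Real ContDiff

namespace Run7.h661z

open Run7.h661x
open Run7.h661y (cang cang0 cang1 cang2 HypE xa ya yM rr rr_pos tendsto_rr)

section
variable {g : Fin 3 → ℝ → ℝ → ℂ} {a : AFd} (S : St (1 / 2) a g)
include S

lemma hypE : HypE (1 / 2) (1 / 4) RR hh KQ g := ⟨S.hyp, by norm_num, by norm_num⟩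

/-- the caps are small -/
lemma cap_small {t : ℝ} (ht : t ∈ Ioo 0 (1 / 2 : ℝ)) (τ : Bool) {p : ℝ} (hp : p ∈ Icc (0:ℝ) 1) :
    ‖(NN a (.cap τ)).c t p‖ ≤ 6 * xa g t := by
  have N := NSt S ht
  have hx := (S.junc_eq ht 0).1
  have hxa := N.xa0
  obtain ⟨a1, a2, -, -⟩ := N.c_x hp
  obtain ⟨b1, b2⟩ := N.c_y hp
  rw [hx] at a1 a2 b2 hxa
  have hya := N.ya0
  have e : ∀ {x y : ℝ}, (if t ≤ 0 then x else y) = y := fun {x y} => if_neg (not_le.2 ht.1)
  have hn : (NN a (.cap τ)).c t p = ((sg true * (caP a a.cK).x t p : ℝ) : ℂ) +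
      ((sg τ * (caP a a.cK).y t p : ℝ) : ℂ) * Complex.I := by
    simp only [NN, net, Pd.c, Pd.refl, Pd.gl, e]
  rw [hn]
  refine (norm_add_le _ _).trans ?_
  rw [norm_mul, Complex.norm_I, mul_one, Complex.norm_real, Complex.norm_real, Real.norm_eq_abs,
    Real.norm_eq_abs, sg_abs, sg_abs]
  have h1 : |(caP a a.cK).x t p| ≤ xa g t := abs_le.2 ⟨a1, a2⟩
  have h2 : |(caP a a.cK).y t p| ≤ 5 * xa g t := by
    rw [abs_of_nonneg (hya.le.trans b1)]; exact b2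
  linarith

/-- a sequence of times -/
lemma seq_times : ∃ (M : ℝ) (t : ℕ → ℝ), 0 < M ∧ (∀ n, t n ∈ Ico (1 / 4 : ℝ) (1 / 2)) ∧
    Tendsto t atTop (𝓝 (1 / 2)) ∧ ∀ n, xa g (t n) < M * rr (1 / 2) (t n) := by
  have H := hypE S
  obtain ⟨M, hM, hseq⟩ := H.bounded_seq
  have hTn : ∀ n : ℕ, max (1 / 4 : ℝ) (1 / 2 - 1 / (n + 1)) ∈ Ico (1 / 4 : ℝ) (1 / 2) := by
    intro n
    refine ⟨le_max_left _ _, max_lt (by norm_num) ?_⟩
    have : (0:ℝ) < 1 / (n + 1) := by positivity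
    linarith
  choose t ht hxt using fun n : ℕ => hseq (max (1 / 4 : ℝ) (1 / 2 - 1 / (n + 1))) (hTn n)
  refine ⟨M, t, hM, fun n => ⟨(hTn n).1.trans (ht n).1, (ht n).2⟩, ?_, hxt⟩
  refine tendsto_of_tendsto_of_tendsto_of_le_of_le
    (g := fun n : ℕ => (1 / 2 : ℝ) - 1 / ((n:ℝ) + 1)) (h := fun _ => (1 / 2 : ℝ)) ?_
    tendsto_const_nhds ?_ ?_
  · have := (tendsto_one_div_add_atTop_nhds_zero_nat (𝕜 := ℝ)).const_sub (1 / 2 : ℝ)
    simpa using this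
  · intro n
    exact (le_max_right _ _).trans (ht n).1
  · intro n
    exact (ht n).2.le

theorem NN_singular : IsSingularTime (Metric.ball (0:ℂ) rB) (1 / 2) (fun i => (NN a i).c) := by
  rintro ⟨κ, hκ, T', γ', hT, F', him⟩
  obtain ⟨M, t, hM, ht, hlim, hxt⟩ := seq_times S
  have htn : ∀ n, t n ∈ Ioo 0 (1 / 2 : ℝ) := fun n => ⟨by linarith [(ht n).1], (ht n).2⟩
  have hlimw : Tendsto t atTop (𝓝[<] (1 / 2)) :=
    tendsto_nhdsWithin_iff.2 ⟨hlim, Eventually.of_forall (fun n => (ht n).2)⟩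
  have hr0 : Tendsto (fun n => rr (1 / 2) (t n)) atTop (𝓝 0) := (tendsto_rr (1 / 2)).comp hlimw
  choose j hj using fun n => him (t n) ⟨(htn n).1.le, (htn n).2⟩ (.cap true)
  -- one label occurs infinitely often
  obtain ⟨k, hk⟩ : ∃ k : κ, ∃ᶠ n in atTop, j n = k := by
    by_contra hcon
    push Not at hcon
    have h1 : ∀ᶠ n in (atTop : Filter ℕ), ∀ k : κ, j n ≠ k := by
      rw [eventually_all]
      intro k
      exact hcon k
    obtain ⟨n, hn⟩ := h1.exists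
    exact hn (j n) rfl
  have hzero : ∀ p ∈ Icc (0:ℝ) 1, γ' k (1 / 2) p = 0 := by
    intro p hp
    have h1 : Tendsto (fun n => γ' k (t n) p) atTop (𝓝 (γ' k (1 / 2) p)) := by
      have hc := F'.cont k (1 / 2, p) ⟨⟨by norm_num, hT⟩, hp⟩
      have h2 : Tendsto (fun n => ((t n, p) : ℝ × ℝ)) atTop
          (𝓝[Ico 0 T' ×ˢ Icc 0 1] ((1 / 2 : ℝ), p)) := by
        refine tendsto_nhdsWithin_iff.2 ⟨hlim.prodMk_nhds tendsto_const_nhds,
          Eventually.of_forall (fun n => ⟨⟨?_, ?_⟩, hp⟩)⟩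
        · linarith [(ht n).1]
        · linarith [(ht n).2]
      exact hc.tendsto.comp h2
    by_contra hne
    have hpos : 0 < ‖γ' k (1 / 2) p‖ := norm_pos_iff.2 hne
    have h3 : Tendsto (fun n => 6 * (M * rr (1 / 2) (t n))) atTop (𝓝 0) := by
      have := (hr0.const_mul M).const_mul 6
      simpa using this
    have e1 := h1.norm.eventually (lt_mem_nhds (half_lt_self hpos))
    have e2 := h3.eventually (gt_mem_nhds (half_pos hpos))
    obtain ⟨n, hn, a1, a2⟩ := (hk.and_eventually (e1.and e2)).exists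
    have hm : γ' k (t n) p ∈ (NN a (.cap true)).c (t n) '' Icc 0 1 := by
      rw [← hj n, hn]
      exact ⟨p, hp, rfl⟩
    obtain ⟨q, hq, hqe⟩ := hm
    have h4 := cap_small S (htn n) true hq
    rw [hqe] at h4
    have := (hxt n).le
    linarith
  have hi := (F'.network (1 / 2) ⟨by norm_num, hT⟩).embedded k
  have z0 : (0:ℝ) ∈ Icc (0:ℝ) 1 := ⟨le_refl _, zero_le_one⟩
  have z1 : (1:ℝ) ∈ Icc (0:ℝ) 1 := ⟨zero_le_one, le_refl _⟩
  have := hi z0 z1 ((hzero 0 z0).trans (hzero 1 z1).symm)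
  norm_num at this

/-! ### blow-up -/

omit S in
lemma D1_seg (s1 s2 : ℝ) {p : ℝ} (hp : p ∈ Icc (0:ℝ) 1) : D1 (seg s1 s2) p = (s2 : ℂ) - s1 := by
  have h1 : HasDerivAt (fun p : ℝ => (p : ℂ)) 1 p := Complex.ofRealCLM.hasDerivAt
  have h2 : HasDerivAt (seg s1 s2) (1 * ((s2 : ℂ) - s1)) p := (h1.mul_const _).const_add _
  rw [one_mul] at h2
  exact h2.hasDerivWithinAt.derivWithin (uniqueDiffOn_Icc zero_lt_one p hp)

omit S in
/-- transfer of the convergence, with a reflection -/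
lemma conv_transfer {c c' : ℕ → ℝ → ℂ} {s1 s2 : ℝ} (φ : ℂ →L[ℝ] ℂ) (hφ : ∀ z, ‖φ z‖ = ‖z‖)
    (hφr : ∀ x : ℝ, φ (x : ℂ) = x)
    (hd : ∀ n, ∀ p ∈ Icc (0:ℝ) 1, DifferentiableAt ℝ (c n) p)
    (he : ∀ n, ∀ p ∈ Icc (0:ℝ) 1, c' n p = φ (c n p))
    (h : Run7.h661y.SubarcsConverge c (Run7.h661y.seg s1 s2)) :
    SubarcsConverge c' (seg s1 s2) := by
  obtain ⟨θ, h1, h2⟩ := h
  have hdθ : ∀ n p, 0 < deriv (θ n) p → DifferentiableAt ℝ (θ n) p := fun n p h =>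
    differentiableAt_of_deriv_ne_zero h.ne'
  refine ⟨θ, ?_, fun ε hε => ?_⟩
  · filter_upwards [h1] with n hn p hp
    obtain ⟨a1, a2⟩ := hn p hp
    refine ⟨a1, ?_⟩
    rw [(hdθ n p a2).derivWithin (uniqueDiffOn_Icc zero_lt_one p hp)]
    exact a2
  · filter_upwards [h1, h2 ε hε] with n hn hn2 p hp
    obtain ⟨a1, a2⟩ := hn p hp
    obtain ⟨b1, b2⟩ := hn2 p hp
    have hφs : φ (seg s1 s2 p) = seg s1 s2 p := by
      have : seg s1 s2 p = ((s1 + p * (s2 - s1) : ℝ) : ℂ) := by rw [seg]; push_cast; ring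
      rw [this, hφr]
    have hs : Run7.h661y.seg s1 s2 p = seg s1 s2 p := rfl
    have hφd : φ ((s2 : ℂ) - s1) = (s2 : ℂ) - s1 := by
      have := hφr (s2 - s1)
      push_cast at this
      exact this
    refine ⟨?_, ?_⟩
    · rw [he n _ a1, ← hφs, ← map_sub, hφ, ← hs]
      exact b1
    · have hdc : DifferentiableAt ℝ (fun q => c n (θ n q)) p :=
        DifferentiableAt.comp (g := c n) (f := θ n) p (hd n _ a1) (hdθ n p a2)
      have d1 : HasDerivWithinAt (fun q => c' n (θ n q)) (φ (deriv (fun q => c n (θ n q)) p))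
          (Icc 0 1) p := by
        have d2 := (φ.hasFDerivAt.comp_hasDerivAt p hdc.hasDerivAt).hasDerivWithinAt (s := Icc 0 1)
        exact d2.congr (fun q hq => he n _ (hn q hq).1) (he n _ a1)
      rw [D1, d1.derivWithin (uniqueDiffOn_Icc zero_lt_one p hp), D1_seg s1 s2 hp, ← hφd, ← map_sub,
        hφ]
      rw [Run7.h661y.deriv_seg] at b2
      exact b2

/-- the reflection -/
lemma arm_conv {t : ℕ → ℝ} (ht : ∀ n, t n ∈ Ioo 0 (1 / 2 : ℝ)) {s1 s2 : ℝ}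
    (h : Run7.h661y.SubarcsConverge (fun n p => g 2 (t n) p / (rr (1 / 2) (t n) : ℂ))
      (Run7.h661y.seg s1 s2)) (τ : Bool) :
    SubarcsConverge (fun n => rescale (1 / 2) (t n) 0 ((NN a (.arm true τ)).c (t n)))
      (seg s1 s2) := by
  have hd : ∀ n, ∀ p ∈ Icc (0:ℝ) 1, DifferentiableAt ℝ
      (fun p => g 2 (t n) p / (rr (1 / 2) (t n) : ℂ)) p := fun n p _ =>
    ((S.C.sm 2).hasDerivAt_p (ht n) p).differentiableAt.div_const _
  have hv : ∀ n, ∀ p ∈ Icc (0:ℝ) 1, (NN a (.arm true τ)).c (t n) p =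
      (a.X 2 (t n) p : ℂ) + ((sg τ * a.Y 2 (t n) p : ℝ) : ℂ) * Complex.I := by
    intro n p _
    have e : ∀ {x y : ℝ}, (if t n ≤ 0 then x else y) = y := fun {x y} => if_neg (not_le.2 (ht n).1)
    simp only [NN, net, Pd.c, Pd.refl, Pd.gl, e, edP, sg, cond_true, one_mul]
  cases τ
  · refine conv_transfer (c := fun n p => g 2 (t n) p / (rr (1 / 2) (t n) : ℂ))
      (Complex.conjCLE : ℂ →L[ℝ] ℂ) (fun z => by simp) (fun x => by simp) hd (fun n p hp => ?_) h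
    rw [rescale, sub_zero, hv n p hp, S.C.eq 2 (t n) (ht n) p hp, rr]
    simp [sg, sub_eq_add_neg]
  · refine conv_transfer (c := fun n p => g 2 (t n) p / (rr (1 / 2) (t n) : ℂ))
      (ContinuousLinearMap.id ℝ ℂ) (fun z => by simp) (fun x => by simp) hd (fun n p hp => ?_) h
    rw [rescale, sub_zero, hv n p hp, S.C.eq 2 (t n) (ht n) p hp, rr]
    simp [sg]

end

/-- The main theorem. -/
theorem main : ∃ (r T : ℝ) (γ : Arc → ℝ → ℝ → ℂ), 0 < r ∧ 0 < T ∧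
    IsNetworkFlow (Metric.ball (0:ℂ) r) T γ ∧ IsSingularTime (Metric.ball (0:ℂ) r) T γ ∧
    ∃ (t : ℕ → ℝ) (S : ℝ), (∀ n, t n ∈ Ioo 0 T) ∧ Tendsto t atTop (𝓝 T) ∧
      ∀ s1 s2 : ℝ, S < s1 → s1 < s2 → ∀ τ : Bool,
        SubarcsConverge (fun n => rescale T (t n) 0 (γ (.arm true τ) (t n))) (seg s1 s2) := by
  obtain ⟨g, S⟩ := exists_flow
  obtain ⟨M, t, ht, hlim, hconv⟩ := (hypE S).main
  have ht' : ∀ n, t n ∈ Ioo 0 (1 / 2 : ℝ) := fun n => ⟨by linarith [(ht n).1], (ht n).2⟩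
  exact ⟨rB, 1 / 2, fun i => (NN AA i).c, rB_pos hh_pos, by norm_num, NN_flow S, NN_singular S,
    t, M, ht', hlim, fun s1 s2 h1 h2 τ => arm_conv S ht' (hconv s1 s2 h1 h2) τ⟩

end Run7.h661z
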