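import Mathlib

/-!
# Networks of plane curves, curvature flow, blow-ups

The plane is `ℂ`. A network consists of curves `σ i : [0,1] → ℂ`, `i ∈ ι`, `ι` finite; all derivatives
in the parameter are taken within `[0,1]`. The two ends of the curve `i` are `(i, false)` (parameter
`0`) and `(i, true)` (parameter `1`).
-/

open Set Filter Topology
open scoped ContDiff

namespace Run7.h661z

variable {ι : Type*} [Fintype ι]

/-- derivative of a curve parametrised by `[0,1]` -/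
noncomputable def D1 (c : ℝ → ℂ) (p : ℝ) : ℂ := derivWithin c (Icc 0 1) p

/-- unit tangent `c' / |c'|` -/
noncomputable def utan (c : ℝ → ℂ) (p : ℝ) : ℂ := D1 c p / (‖D1 c p‖ : ℂ)

/-- signed curvature `⟨c'', i c'⟩ / |c'|³` -/
noncomputable def curv (c : ℝ → ℂ) (p : ℝ) : ℝ :=
  (starRingEnd ℂ (D1 c p) * D1 (D1 c) p).im / ‖D1 c p‖ ^ 3

/-- component of the vector `v` along the unit normal `i c' / |c'|` of the curve `c` at `p` -/
noncomputable def normalPart (c : ℝ → ℂ) (p : ℝ) (v : ℂ) : ℝ :=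
  (starRingEnd ℂ (D1 c p) * v).im / ‖D1 c p‖

/-- the point at which the curve end `e` sits -/
def endpt (σ : ι → ℝ → ℂ) (e : ι × Bool) : ℂ := σ e.1 (cond e.2 1 0)

/-- the unit tangent at the end `e`, pointing from the end into the curve -/
noncomputable def endTan (σ : ι → ℝ → ℂ) (e : ι × Bool) : ℂ :=
  cond e.2 (-utan (σ e.1) 1) (utan (σ e.1) 0)

/-- all curve ends which sit at the same point as the end `e` -/
noncomputable def endsAt (σ : ι → ℝ → ℂ) (e : ι × Bool) : Finset (ι × Bool) :=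
  open Classical in Finset.univ.filter (fun e' => endpt σ e' = endpt σ e)

/-- The curves `σ i`, `i ∈ ι`, form a regular network in the closure of the open set `Ω`. -/
structure IsRegularNetwork (Ω : Set ℂ) (σ : ι → ℝ → ℂ) : Prop where
  contDiff : ∀ i, ContDiffOn ℝ 2 (σ i) (Icc 0 1)
  regular : ∀ i, ∀ p ∈ Icc (0:ℝ) 1, D1 (σ i) p ≠ 0
  embedded : ∀ i, InjOn (σ i) (Icc 0 1)
  mem_closure : ∀ i, ∀ p ∈ Icc (0:ℝ) 1, σ i p ∈ closure Ω
  interior : ∀ i, ∀ p ∈ Ioo (0:ℝ) 1, σ i p ∈ Ω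
  connected : IsConnected (⋃ i, σ i '' Icc 0 1)
  /-- distinct curves meet only at their ends -/
  meet : ∀ i j, i ≠ j → ∀ p ∈ Icc (0:ℝ) 1, ∀ q ∈ Icc (0:ℝ) 1, σ i p = σ j q →
    (p = 0 ∨ p = 1) ∧ (q = 0 ∨ q = 1)
  /-- every curve end is at a triple junction in `Ω`, or is the only curve end at a point of `∂Ω` -/
  ends : ∀ e : ι × Bool, (endpt σ e ∈ Ω ∧ (endsAt σ e).card = 3) ∨
    (endpt σ e ∈ frontier Ω ∧ (endsAt σ e).card = 1)
  /-- the three unit tangents at a triple junction sum to zero (angles of 120 degrees) -/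
  angles : ∀ e : ι × Bool, endpt σ e ∈ Ω → ∑ e' ∈ endsAt σ e, endTan σ e' = 0

/-- `γ i t p`, `t ∈ [0,T)`, `p ∈ [0,1]`, is a curvature flow of regular networks with fixed
end-points: smooth for `t > 0`, and attaining the initial network in `C¹`. -/
structure IsNetworkFlow (Ω : Set ℂ) (T : ℝ) (γ : ι → ℝ → ℝ → ℂ) : Prop where
  smooth : ∀ i, ContDiffOn ℝ ∞ (fun q : ℝ × ℝ => γ i q.1 q.2) (Ioo 0 T ×ˢ Icc 0 1)
  cont : ∀ i, ContinuousOn (fun q : ℝ × ℝ => γ i q.1 q.2) (Ico 0 T ×ˢ Icc 0 1)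
  cont_deriv : ∀ i, ContinuousOn (fun q : ℝ × ℝ => D1 (γ i q.1) q.2) (Ico 0 T ×ˢ Icc 0 1)
  network : ∀ t ∈ Ico 0 T, IsRegularNetwork Ω (fun i => γ i t)
  /-- the end-points on `∂Ω` are fixed -/
  fixed : ∀ e : ι × Bool, ∀ t ∈ Ico 0 T, endpt (fun i => γ i 0) e ∈ frontier Ω →
    endpt (fun i => γ i t) e = endpt (fun i => γ i 0) e
  /-- the normal velocity is the curvature -/
  motion : ∀ i, ∀ t ∈ Ioo 0 T, ∀ p ∈ Icc (0:ℝ) 1,
    normalPart (γ i t) p (deriv (fun s => γ i s p) t) = curv (γ i t) p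

/-- `T` is a singular time of the flow `γ`: there is no flow on a longer time interval (with any
finite number of curves) which for `t < T` consists of the curves of `γ` or contains them; the
parametrisation and the labels of the curves may be different. -/
def IsSingularTime (Ω : Set ℂ) (T : ℝ) (γ : ι → ℝ → ℝ → ℂ) : Prop :=
  ¬ ∃ (κ : Type) (_ : Fintype κ) (T' : ℝ) (γ' : κ → ℝ → ℝ → ℂ), T < T' ∧
    IsNetworkFlow Ω T' γ' ∧
    ∀ t ∈ Ico 0 T, ∀ i, ∃ j, γ' j t '' Icc 0 1 = γ i t '' Icc 0 1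

/-- the curve `σ` rescaled around the point `x0` at the time `t` (Huisken's rescaling) -/
noncomputable def rescale (T t : ℝ) (x0 : ℂ) (σ : ℝ → ℂ) (p : ℝ) : ℂ :=
  (σ p - x0) / (√(2 * (T - t)) : ℂ)

/-- Subarcs of the curves `c n : [0,1] → ℂ`, suitably reparametrised, converge in `C¹([0,1])` to the
curve `L`. -/
def SubarcsConverge (c : ℕ → ℝ → ℂ) (L : ℝ → ℂ) : Prop :=
  ∃ θ : ℕ → ℝ → ℝ,
    (∀ᶠ n in atTop, ∀ p ∈ Icc (0:ℝ) 1, θ n p ∈ Icc (0:ℝ) 1 ∧ 0 < derivWithin (θ n) (Icc 0 1) p) ∧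
    ∀ ε > 0, ∀ᶠ n in atTop, ∀ p ∈ Icc (0:ℝ) 1,
      ‖c n (θ n p) - L p‖ < ε ∧ ‖D1 (fun q => c n (θ n q)) p - D1 L p‖ < ε

/-- the segment from `z` to `w`, parametrised on `[0,1]` -/
noncomputable def seg (z w : ℂ) (p : ℝ) : ℂ := z + p * (w - z)

/-- the curves `c n : [0,1] → ℂ` converge to `L` in `C¹([0,1])` -/
def C1Conv (c : ℕ → ℝ → ℂ) (L : ℝ → ℂ) : Prop :=
  ∀ ε > 0, ∀ᶠ n in atTop, ∀ p ∈ Icc (0:ℝ) 1, ‖c n p - L p‖ < ε ∧ ‖D1 (c n) p - D1 L p‖ < ε

/-- the curves `c n : [0,1] → ℂ` collapse to the point `z` -/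
def Collapse (c : ℕ → ℝ → ℂ) (z : ℂ) : Prop :=
  ∀ ε > 0, ∀ᶠ n in atTop, ∀ p ∈ Icc (0:ℝ) 1, ‖c n p - z‖ < ε

/-- The curves `c n : [0,1] → ℂ` converge in `C¹_loc` to the half-line starting at `z` in the
direction `v`: for every `l > 0` initial arcs, suitably reparametrised, converge in `C¹` to the
segment from `z` to `z + l v`, and the remaining arcs are eventually outside of every disc around
`0` of radius less than `|z + l v|`. -/
def RayConv (c : ℕ → ℝ → ℂ) (z v : ℂ) : Prop :=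
  ∀ l : ℝ, 0 < l → ∃ θ : ℕ → ℝ → ℝ,
    (∀ᶠ n in atTop, θ n 0 = 0 ∧ ∀ p ∈ Icc (0:ℝ) 1, θ n p ∈ Icc (0:ℝ) 1 ∧
      0 < derivWithin (θ n) (Icc 0 1) p) ∧
    C1Conv (fun n p => c n (θ n p)) (seg z (z + l * v)) ∧
    ∀ ρ < ‖z + l * v‖, ∀ᶠ n in atTop, ∀ p ∈ Icc (θ n 1) 1, ρ < ‖c n p‖

/-- regular `C²` curves with `k + x^⊥ = 0` -/
structure IsShrinkerArc (c : ℝ → ℂ) : Prop where
  contDiff : ContDiffOn ℝ 2 c (Icc 0 1)
  regular : ∀ p ∈ Icc (0:ℝ) 1, D1 c p ≠ 0
  equation : ∀ p ∈ Icc (0:ℝ) 1, curv c p + normalPart c p (c p) = 0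

/-- sign -/
def sg (b : Bool) : ℝ := cond b 1 (-1)

/-- the eleven curves of the network: the `bar` (on the real axis), four `short` curves, two `cap`s
and four `arm`s. The first sign is that of the real part (`true` = right), the second one that of
the imaginary part (`true` = upper). -/
inductive Arc : Type
  | bar : Arc
  | short : Bool → Bool → Arc
  | cap : Bool → Arc
  | arm : Bool → Bool → Arc

/-- an enumeration of the arcs -/
def Arc.enum : Bool × Bool × Bool × Bool → Arc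
  | (false, false, σ, τ) => .short σ τ
  | (false, true, σ, τ) => .arm σ τ
  | (true, false, _, τ) => .cap τ
  | (true, true, _, _) => .bar

instance Arc.instFinite : Finite Arc := by
  refine Finite.of_surjective Arc.enum ?_
  rintro (_ | ⟨σ, τ⟩ | τ | ⟨σ, τ⟩)
  · exact ⟨(true, true, true, true), rfl⟩
  · exact ⟨(false, false, σ, τ), rfl⟩
  · exact ⟨(true, false, true, τ), rfl⟩
  · exact ⟨(false, true, σ, τ), rfl⟩

noncomputable instance Arc.instFintype : Fintype Arc := Fintype.ofFinite Arc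

/-- The networks `c n` (eleven curves each) converge in `C¹_loc` to the following shrinker: the
segment `[-b,b]`, the arc `C` from `b` to `-b` in the upper half-plane, its mirror image, and the
two half-lines `[b,∞)` and `(-∞,-b]`, each of which is the limit of two curves. -/
structure ConvergesToCell (c : ℕ → Arc → ℝ → ℂ) (b : ℝ) (C : ℝ → ℂ) : Prop where
  b_pos : 0 < b
  shrinker : IsShrinkerArc C
  injective : InjOn C (Icc 0 1)
  ends : C 0 = b ∧ C 1 = -b
  upper : ∀ p ∈ Ioo (0:ℝ) 1, 0 < (C p).im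
  angle : utan C 0 = Complex.exp (2 * Real.pi / 3 * Complex.I) ∧
    utan C 1 = Complex.exp (-(2 * Real.pi / 3) * Complex.I)
  bar : C1Conv (fun n => c n .bar) (seg (-b) b)
  cap : ∀ τ, C1Conv (fun n => c n (.cap τ)) (fun p => cond τ (C p) (starRingEnd ℂ (C p)))
  short : ∀ σ τ, Collapse (fun n => c n (.short σ τ)) ((sg σ : ℂ) * b)
  arm : ∀ σ τ, RayConv (fun n => c n (.arm σ τ)) ((sg σ : ℂ) * b) (sg σ)

end Run7.h661z
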