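import Pool.Agent.Run7.h661.Z.Defs

/-!
# Curves with a direction angle
-/

open Set Filter Topology
open scoped Real ContDiff

namespace Run7.h661z

/-- speed, its derivative, direction, curvature, tangential velocity and coordinates of a moving
curve -/
structure Pd where
  ro : ℝ → ℝ → ℝ
  rp : ℝ → ℝ → ℝ
  al : ℝ → ℝ → ℝ
  k : ℝ → ℝ → ℝ
  lm : ℝ → ℝ → ℝ
  x : ℝ → ℝ → ℝ
  y : ℝ → ℝ → ℝ

/-- the curve at the time `t` -/
structure Pd.Sl (P : Pd) (t : ℝ) : Prop where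
  pos : ∀ p ∈ Icc (0:ℝ) 1, 0 < P.ro t p
  px : ∀ p ∈ Icc (0:ℝ) 1, HasDerivWithinAt (P.x t) (P.ro t p * Real.cos (P.al t p)) (Icc 0 1) p
  py : ∀ p ∈ Icc (0:ℝ) 1, HasDerivWithinAt (P.y t) (P.ro t p * Real.sin (P.al t p)) (Icc 0 1) p
  pr : ∀ p ∈ Icc (0:ℝ) 1, HasDerivWithinAt (P.ro t) (P.rp t p) (Icc 0 1) p
  pal : ∀ p ∈ Icc (0:ℝ) 1, HasDerivWithinAt (P.al t) (P.ro t p * P.k t p) (Icc 0 1) p
  crp : ContinuousOn (P.rp t) (Icc 0 1)
  ck : ContinuousOn (P.k t) (Icc 0 1)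

/-- the velocity at the time `t` -/
structure Pd.Mv (P : Pd) (t : ℝ) : Prop where
  tx : ∀ p ∈ Icc (0:ℝ) 1, HasDerivAt (fun s => P.x s p)
    (P.lm t p * Real.cos (P.al t p) - P.k t p * Real.sin (P.al t p)) t
  ty : ∀ p ∈ Icc (0:ℝ) 1, HasDerivAt (fun s => P.y s p)
    (P.lm t p * Real.sin (P.al t p) + P.k t p * Real.cos (P.al t p)) t

structure Pd.Fl (P : Pd) (T : ℝ) : Prop where
  sl : ∀ t ∈ Ico 0 T, P.Sl t
  mv : ∀ t ∈ Ioo 0 T, P.Mv t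
  sx : ContDiffOn ℝ ∞ (fun q : ℝ × ℝ => P.x q.1 q.2) (Ioo 0 T ×ˢ Icc 0 1)
  sy : ContDiffOn ℝ ∞ (fun q : ℝ × ℝ => P.y q.1 q.2) (Ioo 0 T ×ˢ Icc 0 1)
  cx : ContinuousOn (fun q : ℝ × ℝ => P.x q.1 q.2) (Ico 0 T ×ˢ Icc 0 1)
  cy : ContinuousOn (fun q : ℝ × ℝ => P.y q.1 q.2) (Ico 0 T ×ˢ Icc 0 1)
  cr : ContinuousOn (fun q : ℝ × ℝ => P.ro q.1 q.2) (Ico 0 T ×ˢ Icc 0 1)
  cal : ContinuousOn (fun q : ℝ × ℝ => P.al q.1 q.2) (Ico 0 T ×ˢ Icc 0 1)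

/-- the complex curve -/
noncomputable def Pd.c (P : Pd) (t p : ℝ) : ℂ := (P.x t p : ℂ) + P.y t p * Complex.I
/-- unit vector -/
noncomputable def uv (θ : ℝ) : ℂ := (Real.cos θ : ℂ) + Real.sin θ * Complex.I

lemma uv_norm (θ : ℝ) : ‖uv θ‖ = 1 := by
  have : uv θ = Complex.exp ((θ : ℝ) * Complex.I) := by
    rw [uv, Complex.exp_mul_I, Complex.ofReal_cos, Complex.ofReal_sin]
  rw [this]
  exact Complex.norm_exp_ofReal_mul_I _

lemma uv_conj (θ : ℝ) : starRingEnd ℂ (uv θ) * uv θ = 1 := by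
  rw [mul_comm, Complex.mul_conj, Complex.normSq_eq_norm_sq, uv_norm]; simp

lemma conj_uv (θ : ℝ) : starRingEnd ℂ (uv θ) = uv (-θ) := by
  rw [uv, uv, map_add, map_mul, Complex.conj_ofReal, Complex.conj_ofReal, Complex.conj_I,
    Real.cos_neg, Real.sin_neg]
  push_cast; ring

lemma c_re (P : Pd) (t p : ℝ) : (P.c t p).re = P.x t p := by simp [Pd.c]
lemma c_im (P : Pd) (t p : ℝ) : (P.c t p).im = P.y t p := by simp [Pd.c]

section
variable {P : Pd} {t : ℝ} (S : P.Sl t)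
include S

lemma Pd.Sl.hc {p : ℝ} (hp : p ∈ Icc (0:ℝ) 1) :
    HasDerivWithinAt (P.c t) ((P.ro t p : ℂ) * uv (P.al t p)) (Icc 0 1) p := by
  have d1 := (S.px p hp).ofReal_comp
  have d2 := (S.py p hp).ofReal_comp
  refine HasDerivWithinAt.congr_deriv (f := P.c t) (d1.add (d2.mul_const Complex.I)) ?_
  rw [uv]; push_cast; ring

lemma Pd.Sl.d1 {p : ℝ} (hp : p ∈ Icc (0:ℝ) 1) :
    D1 (P.c t) p = (P.ro t p : ℂ) * uv (P.al t p) :=
  (S.hc hp).derivWithin (uniqueDiffOn_Icc zero_lt_one p hp)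

lemma Pd.Sl.hc2 {p : ℝ} (hp : p ∈ Icc (0:ℝ) 1) : HasDerivWithinAt (D1 (P.c t))
    (((P.rp t p : ℂ) + (P.ro t p ^ 2 * P.k t p : ℝ) * Complex.I) * uv (P.al t p))
    (Icc 0 1) p := by
  have dc := (S.pal p hp).cos.ofReal_comp
  have ds := (S.pal p hp).sin.ofReal_comp
  have dW := dc.add (ds.mul_const Complex.I)
  have dr := (S.pr p hp).ofReal_comp
  have h2 := (dr.mul dW).congr (fun q hq => (S.d1 hq).trans rfl) ((S.d1 hp).trans rfl)
  refine h2.congr_deriv ?_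
  simp only [Pi.add_apply]
  rw [uv]
  push_cast
  linear_combination (-(P.ro t p : ℂ) ^ 2 * (P.k t p : ℂ) * (Complex.sin (P.al t p) : ℂ)) *
    Complex.I_sq

lemma Pd.Sl.d2 {p : ℝ} (hp : p ∈ Icc (0:ℝ) 1) : D1 (D1 (P.c t)) p =
    ((P.rp t p : ℂ) + (P.ro t p ^ 2 * P.k t p : ℝ) * Complex.I) * uv (P.al t p) :=
  (S.hc2 hp).derivWithin (uniqueDiffOn_Icc zero_lt_one p hp)

lemma Pd.Sl.norm {p : ℝ} (hp : p ∈ Icc (0:ℝ) 1) : ‖D1 (P.c t) p‖ = P.ro t p := by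
  rw [S.d1 hp, norm_mul, uv_norm, mul_one, Complex.norm_real, Real.norm_of_nonneg (S.pos p hp).le]

lemma Pd.Sl.ne {p : ℝ} (hp : p ∈ Icc (0:ℝ) 1) : D1 (P.c t) p ≠ 0 := by
  rw [← norm_pos_iff, S.norm hp]; exact S.pos p hp

lemma Pd.Sl.tan {p : ℝ} (hp : p ∈ Icc (0:ℝ) 1) : utan (P.c t) p = uv (P.al t p) := by
  have h : (P.ro t p : ℂ) ≠ 0 := by exact_mod_cast (S.pos p hp).ne'
  rw [utan, S.norm hp, S.d1 hp, mul_div_cancel_left₀ _ h]

lemma Pd.Sl.cd2 : ContDiffOn ℝ 2 (P.c t) (Icc 0 1) := by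
  have hU := uniqueDiffOn_Icc (zero_lt_one (α := ℝ))
  have hcal : ContinuousOn (P.al t) (Icc 0 1) := fun p hp => (S.pal p hp).continuousWithinAt
  have hcr : ContinuousOn (P.ro t) (Icc 0 1) := fun p hp => (S.pr p hp).continuousWithinAt
  have h1 : ContDiffOn ℝ 1 (D1 (P.c t)) (Icc 0 1) := by
    rw [contDiffOn_one_iff_derivWithin hU]
    refine ⟨fun p hp => (S.hc2 hp).differentiableWithinAt, ?_⟩
    refine ContinuousOn.congr (f := fun p => ((P.rp t p : ℂ) + (P.ro t p ^ 2 * P.k t p : ℝ) *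
      Complex.I) * uv (P.al t p)) ?_ (fun p hp => S.d2 hp)
    have e1 := S.crp
    have e2 := S.ck
    unfold uv
    fun_prop
  have e : (2 : WithTop ℕ∞) = 1 + 1 := by norm_num
  rw [e, contDiffOn_succ_iff_derivWithin hU]
  exact ⟨fun p hp => (S.hc hp).differentiableWithinAt, by simp, h1⟩

lemma Pd.Sl.curv_eq {p : ℝ} (hp : p ∈ Icc (0:ℝ) 1) : curv (P.c t) p = P.k t p := by
  have h := (S.pos p hp).ne'
  have e : starRingEnd ℂ ((P.ro t p : ℂ) * uv (P.al t p)) *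
      (((P.rp t p : ℂ) + (P.ro t p ^ 2 * P.k t p : ℝ) * Complex.I) * uv (P.al t p)) =
      ((P.ro t p * P.rp t p : ℝ) : ℂ) + ((P.ro t p ^ 3 * P.k t p : ℝ) : ℂ) * Complex.I := by
    rw [map_mul, Complex.conj_ofReal]
    have := uv_conj (P.al t p)
    push_cast
    linear_combination ((P.ro t p : ℂ) * ((P.rp t p : ℂ) + (P.ro t p : ℂ) ^ 2 * (P.k t p : ℂ) *
      Complex.I)) * this
  have e2 : (((P.ro t p * P.rp t p : ℝ) : ℂ) + ((P.ro t p ^ 3 * P.k t p : ℝ) : ℂ) *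
      Complex.I).im = P.ro t p ^ 3 * P.k t p := by simp [-Complex.ofReal_mul, -Complex.ofReal_pow]
  rw [curv, S.norm hp, S.d2 hp, S.d1 hp, e, e2]
  field_simp

lemma Pd.Sl.normal_eq {p : ℝ} (hp : p ∈ Icc (0:ℝ) 1) {lm κ : ℝ} {v : ℂ}
    (hv : v = ((lm : ℂ) + κ * Complex.I) * uv (P.al t p)) : normalPart (P.c t) p v = κ := by
  have h := (S.pos p hp).ne'
  have e : starRingEnd ℂ ((P.ro t p : ℂ) * uv (P.al t p)) * v =
      ((P.ro t p * lm : ℝ) : ℂ) + ((P.ro t p * κ : ℝ) : ℂ) * Complex.I := by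
    rw [hv, map_mul, Complex.conj_ofReal]
    have := uv_conj (P.al t p)
    push_cast
    linear_combination ((P.ro t p : ℂ) * ((lm : ℂ) + κ * Complex.I)) * this
  have e2 : (((P.ro t p * lm : ℝ) : ℂ) + ((P.ro t p * κ : ℝ) : ℂ) * Complex.I).im =
      P.ro t p * κ := by simp [-Complex.ofReal_mul]
  rw [normalPart, S.norm hp, S.d1 hp, e, e2]
  field_simp

end

lemma Pd.Mv.dt {P : Pd} {t : ℝ} (M : P.Mv t) {p : ℝ} (hp : p ∈ Icc (0:ℝ) 1) :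
    deriv (fun s => P.c s p) t = ((P.lm t p : ℂ) + P.k t p * Complex.I) * uv (P.al t p) := by
  have d1 := (M.tx p hp).ofReal_comp
  have d2 := (M.ty p hp).ofReal_comp
  have h : HasDerivAt (fun s => P.c s p) _ t := d1.add (d2.mul_const Complex.I)
  rw [h.deriv, uv]
  push_cast
  linear_combination (-(P.k t p : ℂ) * (Complex.sin (P.al t p) : ℂ)) * Complex.I_sq

section
variable {P : Pd} {T : ℝ} (F : P.Fl T)
include F

lemma Pd.Fl.smooth : ContDiffOn ℝ ∞ (fun q : ℝ × ℝ => P.c q.1 q.2) (Ioo 0 T ×ˢ Icc 0 1) := by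
  have d1 : ContDiffOn ℝ ∞ (fun q : ℝ × ℝ => (P.x q.1 q.2 : ℂ)) (Ioo 0 T ×ˢ Icc 0 1) :=
    Complex.ofRealCLM.contDiff.comp_contDiffOn F.sx
  have d2 : ContDiffOn ℝ ∞ (fun q : ℝ × ℝ => (P.y q.1 q.2 : ℂ)) (Ioo 0 T ×ˢ Icc 0 1) :=
    Complex.ofRealCLM.contDiff.comp_contDiffOn F.sy
  exact d1.add (d2.mul contDiffOn_const)

lemma Pd.Fl.cont : ContinuousOn (fun q : ℝ × ℝ => P.c q.1 q.2) (Ico 0 T ×ˢ Icc 0 1) := by
  have h1 := F.cx
  have h2 := F.cy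
  unfold Pd.c
  fun_prop

lemma Pd.Fl.cont_deriv : ContinuousOn (fun q : ℝ × ℝ => D1 (P.c q.1) q.2)
    (Ico 0 T ×ˢ Icc 0 1) := by
  refine ContinuousOn.congr (f := fun q : ℝ × ℝ => (P.ro q.1 q.2 : ℂ) * uv (P.al q.1 q.2)) ?_
    (fun q hq => (F.sl q.1 hq.1).d1 hq.2)
  have h1 := F.cr
  have h2 := F.cal
  unfold uv
  fun_prop

lemma Pd.Fl.motion {t : ℝ} (ht : t ∈ Ioo 0 T) {p : ℝ} (hp : p ∈ Icc (0:ℝ) 1) :
    normalPart (P.c t) p (deriv (fun s => P.c s p) t) = curv (P.c t) p := by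
  have S := F.sl t ⟨ht.1.le, ht.2⟩
  rw [S.curv_eq hp, S.normal_eq hp ((F.mv t ht).dt hp)]

end

/-! ### reflections -/

lemma sg_sq (b : Bool) : sg b * sg b = 1 := by cases b <;> norm_num [sg]
lemma sg_ne (b : Bool) : sg b ≠ 0 := by cases b <;> norm_num [sg]
lemma sg_abs (b : Bool) (x : ℝ) : |sg b * x| = |x| := by cases b <;> simp [sg]

/-- reflected curve -/
noncomputable def Pd.refl (P : Pd) (σ τ : Bool) : Pd where
  ro := P.ro
  rp := P.rp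
  al := fun t p => cond σ 0 π + sg σ * sg τ * P.al t p
  k := fun t p => sg σ * sg τ * P.k t p
  lm := P.lm
  x := fun t p => sg σ * P.x t p
  y := fun t p => sg τ * P.y t p

lemma refl_cos (σ τ : Bool) (θ : ℝ) : Real.cos (cond σ 0 π + sg σ * sg τ * θ) =
    sg σ * Real.cos θ := by
  cases σ <;> cases τ <;> simp [sg, Real.cos_add]

lemma refl_sin (σ τ : Bool) (θ : ℝ) : Real.sin (cond σ 0 π + sg σ * sg τ * θ) =
    sg τ * Real.sin θ := by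
  cases σ <;> cases τ <;> simp [sg, Real.sin_add]

lemma refl_uv (σ τ : Bool) (θ : ℝ) : uv (cond σ 0 π + sg σ * sg τ * θ) =
    ((sg σ * Real.cos θ : ℝ) : ℂ) + ((sg τ * Real.sin θ : ℝ) : ℂ) * Complex.I := by
  rw [uv, refl_cos, refl_sin]

lemma Pd.Sl.refl {P : Pd} {t : ℝ} (S : P.Sl t) (σ τ : Bool) : (P.refl σ τ).Sl t := by
  refine ⟨S.pos, fun p hp => ?_, fun p hp => ?_, S.pr, fun p hp => ?_, S.crp,
    S.ck.const_mul _⟩
  · refine ((S.px p hp).const_mul (sg σ)).congr_deriv ?_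
    simp only [Pd.refl, refl_cos]; ring
  · refine ((S.py p hp).const_mul (sg τ)).congr_deriv ?_
    simp only [Pd.refl, refl_sin]; ring
  · refine (((S.pal p hp).const_mul (sg σ * sg τ)).const_add (cond σ 0 π)).congr_deriv ?_
    simp only [Pd.refl]; ring

lemma Pd.Mv.refl {P : Pd} {t : ℝ} (M : P.Mv t) (σ τ : Bool) : (P.refl σ τ).Mv t := by
  refine ⟨fun p hp => ?_, fun p hp => ?_⟩
  · refine ((M.tx p hp).const_mul (sg σ)).congr_deriv ?_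
    simp only [Pd.refl, refl_cos, refl_sin]
    linear_combination (sg σ * P.k t p * Real.sin (P.al t p)) * sg_sq τ
  · refine ((M.ty p hp).const_mul (sg τ)).congr_deriv ?_
    simp only [Pd.refl, refl_cos, refl_sin]
    linear_combination (-(sg τ * P.k t p * Real.cos (P.al t p))) * sg_sq σ

lemma Pd.Fl.refl {P : Pd} {T : ℝ} (F : P.Fl T) (σ τ : Bool) : (P.refl σ τ).Fl T :=
  ⟨fun t ht => (F.sl t ht).refl σ τ, fun t ht => (F.mv t ht).refl σ τ, contDiffOn_const.mul F.sx,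
    contDiffOn_const.mul F.sy, continuousOn_const.mul F.cx, continuousOn_const.mul F.cy, F.cr,
    continuousOn_const.add (continuousOn_const.mul F.cal)⟩

end Run7.h661z
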