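import Pool.Agent.Run7.h661.Z.Piece

/-!
# The network at a fixed time
-/

open Set Filter Topology
open scoped Real ContDiff

namespace Run7.h661z

section
variable {f f' : ℝ → ℝ} {a b c d : ℝ}

lemma int_deriv (hf : ∀ p ∈ Icc a b, HasDerivWithinAt f (f' p) (Icc a b) p) (hac : a ≤ c)
    (hdb : d ≤ b) {x : ℝ} (hx : x ∈ interior (Icc c d)) : x ∈ Icc c d ∧ HasDerivAt f (f' x) x := by
  rw [interior_Icc] at hx
  refine ⟨⟨hx.1.le, hx.2.le⟩, (hf x ⟨hac.trans hx.1.le, hx.2.le.trans hdb⟩).hasDerivAt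
    (Icc_mem_nhds (hac.trans_lt hx.1) (hx.2.trans_le hdb))⟩

lemma con_of (hf : ∀ p ∈ Icc a b, HasDerivWithinAt f (f' p) (Icc a b) p) (hac : a ≤ c)
    (hdb : d ≤ b) : ContinuousOn f (Icc c d) := fun x hx =>
  ((hf x ⟨hac.trans hx.1, hx.2.trans hdb⟩).continuousWithinAt).mono (Icc_subset_Icc hac hdb)

lemma smono (hf : ∀ p ∈ Icc a b, HasDerivWithinAt f (f' p) (Icc a b) p) (hac : a ≤ c)
    (hdb : d ≤ b) (h : ∀ p ∈ Icc c d, 0 < f' p) : StrictMonoOn f (Icc c d) :=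
  strictMonoOn_of_deriv_pos (convex_Icc c d) (con_of hf hac hdb) (fun x hx => by
    obtain ⟨h1, h2⟩ := int_deriv hf hac hdb hx
    rw [h2.deriv]; exact h x h1)

lemma santi (hf : ∀ p ∈ Icc a b, HasDerivWithinAt f (f' p) (Icc a b) p) (hac : a ≤ c)
    (hdb : d ≤ b) (h : ∀ p ∈ Icc c d, f' p < 0) : StrictAntiOn f (Icc c d) :=
  strictAntiOn_of_deriv_neg (convex_Icc c d) (con_of hf hac hdb) (fun x hx => by
    obtain ⟨h1, h2⟩ := int_deriv hf hac hdb hx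
    rw [h2.deriv]; exact h x h1)

lemma wmono (hf : ∀ p ∈ Icc a b, HasDerivWithinAt f (f' p) (Icc a b) p) (hac : a ≤ c)
    (hdb : d ≤ b) (h : ∀ p ∈ Icc c d, 0 ≤ f' p) : MonotoneOn f (Icc c d) :=
  monotoneOn_of_deriv_nonneg (convex_Icc c d) (con_of hf hac hdb)
    (fun x hx => (int_deriv hf hac hdb hx).2.differentiableAt.differentiableWithinAt) (fun x hx => by
    obtain ⟨h1, h2⟩ := int_deriv hf hac hdb hx
    rw [h2.deriv]; exact h x h1)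

lemma wanti (hf : ∀ p ∈ Icc a b, HasDerivWithinAt f (f' p) (Icc a b) p) (hac : a ≤ c)
    (hdb : d ≤ b) (h : ∀ p ∈ Icc c d, f' p ≤ 0) : AntitoneOn f (Icc c d) :=
  antitoneOn_of_deriv_nonpos (convex_Icc c d) (con_of hf hac hdb)
    (fun x hx => (int_deriv hf hac hdb hx).2.differentiableAt.differentiableWithinAt) (fun x hx => by
    obtain ⟨h1, h2⟩ := int_deriv hf hac hdb hx
    rw [h2.deriv]; exact h x h1)

end

/-- the pieces of the network at the time `t` -/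
structure NS0 (Ps Pc Pa : Pd) (t R h xa ya φ xb : ℝ) : Prop where
  s : Ps.Sl t
  c : Pc.Sl t
  a : Pa.Sl t
  s0 : Ps.x t 0 = xa ∧ Ps.y t 0 = ya ∧ Ps.al t 0 = -(2 * π / 3) + φ
  s1 : Ps.x t 1 = xb ∧ Ps.y t 1 = 0 ∧ Ps.al t 1 = -(2 * π / 3)
  c0 : Pc.x t 0 = xa ∧ Pc.y t 0 = ya ∧ Pc.al t 0 = 2 * π / 3 + φ
  c1 : Pc.x t 1 = -xa ∧ Pc.y t 1 = ya ∧ Pc.al t 1 = 2 * π - (2 * π / 3 + φ)
  a0 : Pa.x t 0 = xa ∧ Pa.y t 0 = ya ∧ Pa.al t 0 = φ
  a1 : Pa.x t 1 = R ∧ Pa.y t 1 = h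
  sa : ∀ p ∈ Icc (0:ℝ) 1, -(2 * π / 3) ≤ Ps.al t p ∧ Ps.al t p ≤ -(π / 3)
  ca : ∀ p ∈ Icc (0:ℝ) 1, 2 * π / 3 ≤ Pc.al t p ∧ Pc.al t p ≤ 4 * π / 3 ∧
    (p ≤ 1 / 2 → Pc.al t p ≤ π) ∧ (1 / 2 ≤ p → π ≤ Pc.al t p)
  aa : ∀ p ∈ Icc (0:ℝ) 1, 0 ≤ Pa.al t p ∧ Pa.al t p ≤ π / 3
  ya0 : 0 < ya
  yx : ya < xa
  xs : xa ≤ 2
  hR : 1000 ≤ R
  hh : 0 < h

lemma s3_gt : 1 < √3 := by
  rw [show (1:ℝ) = √1 by simp]
  exact Real.sqrt_lt_sqrt (by norm_num) (by norm_num)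

lemma s3_lt : √3 < 2 := by
  rw [show (2:ℝ) = √4 by rw [show (4:ℝ) = 2 ^ 2 by norm_num]; exact (Real.sqrt_sq (by norm_num)).symm]
  exact Real.sqrt_lt_sqrt (by norm_num) (by norm_num)

lemma lin_trig (θ : ℝ) : √3 * Real.cos θ + Real.sin θ = 2 * Real.sin (θ + π / 3) ∧
    √3 * Real.cos θ - Real.sin θ = 2 * Real.sin (π / 3 - θ) := by
  constructor
  · rw [Real.sin_add, Real.sin_pi_div_three, Real.cos_pi_div_three]; ring
  · rw [Real.sin_sub, Real.sin_pi_div_three, Real.cos_pi_div_three]; ring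

section
variable {Ps Pc Pa : Pd} {t R h xa ya φ xb : ℝ} (N : NS0 Ps Pc Pa t R h xa ya φ xb)
include N

lemma NS0.xa0 : 0 < xa := N.ya0.trans N.yx

lemma NS0.s_anti : StrictAntiOn (Ps.y t) (Icc 0 1) := by
  refine santi N.s.py (le_refl _) (le_refl _) (fun p hp => ?_)
  have h1 := N.sa p hp
  have h2 := N.s.pos p hp
  have hpi := Real.pi_pos
  have h3 : Real.sin (Ps.al t p) < 0 := by
    rw [← neg_pos, ← Real.sin_neg]
    exact Real.sin_pos_of_pos_of_lt_pi (by linarith) (by linarith)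
  nlinarith

lemma NS0.s_y {p : ℝ} (hp : p ∈ Icc (0:ℝ) 1) : 0 ≤ Ps.y t p ∧ Ps.y t p ≤ ya ∧
    (Ps.y t p = 0 → p = 1) ∧ (Ps.y t p = ya → p = 0) := by
  have z0 : (0:ℝ) ∈ Icc (0:ℝ) 1 := ⟨le_refl _, zero_le_one⟩
  have z1 : (1:ℝ) ∈ Icc (0:ℝ) 1 := ⟨zero_le_one, le_refl _⟩
  have h := N.s_anti
  refine ⟨?_, ?_, fun e => ?_, fun e => ?_⟩
  · rw [← N.s1.2.1]; exact h.antitoneOn hp z1 hp.2
  · rw [← N.s0.2.1]; exact h.antitoneOn z0 hp hp.1
  · exact h.injOn hp z1 (e.trans N.s1.2.1.symm)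
  · exact h.injOn hp z0 (e.trans N.s0.2.1.symm)

lemma NS0.s_x {p : ℝ} (hp : p ∈ Icc (0:ℝ) 1) : 0 < Ps.x t p ∧ Ps.x t p ≤ 2 * xa ∧
    |Ps.x t p - xa| ≤ ya := by
  have z0 : (0:ℝ) ∈ Icc (0:ℝ) 1 := ⟨le_refl _, zero_le_one⟩
  have hpi := Real.pi_pos
  obtain ⟨y0, y1, -, -⟩ := N.s_y hp
  have s1 := s3_gt
  have hyx := N.yx
  have hxa := N.xa0
  have hm : MonotoneOn (fun p => √3 * Ps.x t p - Ps.y t p) (Icc 0 1) := by
    refine wmono (f' := fun p => √3 * (Ps.ro t p * Real.cos (Ps.al t p)) -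
      Ps.ro t p * Real.sin (Ps.al t p)) (fun p hp => ((N.s.px p hp).const_mul _).sub (N.s.py p hp))
      (le_refl _) (le_refl _) (fun p hp => ?_)
    have h1 := N.sa p hp
    have h2 := N.s.pos p hp
    have e : √3 * (Ps.ro t p * Real.cos (Ps.al t p)) - Ps.ro t p * Real.sin (Ps.al t p) =
      Ps.ro t p * (√3 * Real.cos (Ps.al t p) - Real.sin (Ps.al t p)) := by ring
    rw [e, (lin_trig _).2]
    have h3 : 0 ≤ Real.sin (π / 3 - Ps.al t p) :=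
      Real.sin_nonneg_of_nonneg_of_le_pi (by linarith) (by linarith)
    positivity
  have ha : AntitoneOn (fun p => √3 * Ps.x t p + Ps.y t p) (Icc 0 1) := by
    refine wanti (f' := fun p => √3 * (Ps.ro t p * Real.cos (Ps.al t p)) +
      Ps.ro t p * Real.sin (Ps.al t p)) (fun p hp => ((N.s.px p hp).const_mul _).add (N.s.py p hp))
      (le_refl _) (le_refl _) (fun p hp => ?_)
    have h1 := N.sa p hp
    have h2 := N.s.pos p hp
    have e : √3 * (Ps.ro t p * Real.cos (Ps.al t p)) + Ps.ro t p * Real.sin (Ps.al t p) =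
      Ps.ro t p * (√3 * Real.cos (Ps.al t p) + Real.sin (Ps.al t p)) := by ring
    rw [e, (lin_trig _).1]
    have h3 : Real.sin (Ps.al t p + π / 3) ≤ 0 :=
      Real.sin_nonpos_of_nonpos_of_neg_pi_le (by linarith) (by linarith)
    nlinarith
  have m1 := hm z0 hp hp.1
  have m2 := ha z0 hp hp.1
  simp only [N.s0.1, N.s0.2.1] at m1 m2
  refine ⟨?_, ?_, ?_⟩
  · have : 0 < √3 * Ps.x t p := by nlinarith
    exact (mul_pos_iff_of_pos_left (by linarith)).1 this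
  · nlinarith
  · have hya := N.ya0
    rw [abs_le]
    constructor
    · by_contra hcon
      push Not at hcon
      nlinarith
    · by_contra hcon
      push Not at hcon
      nlinarith

lemma NS0.c_anti : StrictAntiOn (Pc.x t) (Icc 0 1) := by
  refine santi N.c.px (le_refl _) (le_refl _) (fun p hp => ?_)
  obtain ⟨h1, h1', -⟩ := N.ca p hp
  have h2 := N.c.pos p hp
  have hpi := Real.pi_pos
  have h3 : Real.cos (Pc.al t p) < 0 :=
    Real.cos_neg_of_pi_div_two_lt_of_lt (by linarith) (by linarith)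
  nlinarith

lemma NS0.c_x {p : ℝ} (hp : p ∈ Icc (0:ℝ) 1) : -xa ≤ Pc.x t p ∧ Pc.x t p ≤ xa ∧
    (Pc.x t p = xa → p = 0) ∧ (Pc.x t p = -xa → p = 1) := by
  have z0 : (0:ℝ) ∈ Icc (0:ℝ) 1 := ⟨le_refl _, zero_le_one⟩
  have z1 : (1:ℝ) ∈ Icc (0:ℝ) 1 := ⟨zero_le_one, le_refl _⟩
  have h := N.c_anti
  refine ⟨?_, ?_, fun e => ?_, fun e => ?_⟩
  · rw [← N.c1.1]; exact h.antitoneOn hp z1 hp.2
  · rw [← N.c0.1]; exact h.antitoneOn z0 hp hp.1
  · exact h.injOn hp z0 (e.trans N.c0.1.symm)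
  · exact h.injOn hp z1 (e.trans N.c1.1.symm)

lemma NS0.c_y {p : ℝ} (hp : p ∈ Icc (0:ℝ) 1) : ya ≤ Pc.y t p ∧ Pc.y t p ≤ 5 * xa := by
  have hpi := Real.pi_pos
  have s1 := s3_gt
  have s2 := s3_lt
  have hyx := N.yx
  have hxa := N.xa0
  have hxs := N.xs
  obtain ⟨x1, x2, -, -⟩ := N.c_x hp
  rcases le_total p (1 / 2) with hl | hr
  · have z0 : (0:ℝ) ∈ Icc (0:ℝ) (1 / 2) := ⟨le_refl _, by norm_num⟩
    have hp' : p ∈ Icc (0:ℝ) (1 / 2) := ⟨hp.1, hl⟩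
    have m1 : MonotoneOn (Pc.y t) (Icc 0 (1 / 2)) := by
      refine wmono N.c.py (le_refl _) (by norm_num) (fun q hq => ?_)
      have hqI : q ∈ Icc (0:ℝ) 1 := ⟨hq.1, by linarith [hq.2]⟩
      obtain ⟨h1, -, h3, -⟩ := N.ca q hqI
      have h2 := N.c.pos q hqI
      have := h3 hq.2
      have h4 : 0 ≤ Real.sin (Pc.al t q) :=
        Real.sin_nonneg_of_nonneg_of_le_pi (by linarith) (by linarith)
      positivity
    have m2 : AntitoneOn (fun p => √3 * Pc.x t p + Pc.y t p) (Icc 0 (1 / 2)) := by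
      refine wanti (f' := fun p => √3 * (Pc.ro t p * Real.cos (Pc.al t p)) +
        Pc.ro t p * Real.sin (Pc.al t p)) (fun p hp => ((N.c.px p hp).const_mul _).add
        (N.c.py p hp)) (le_refl _) (by norm_num) (fun q hq => ?_)
      have hqI : q ∈ Icc (0:ℝ) 1 := ⟨hq.1, by linarith [hq.2]⟩
      obtain ⟨h1, -, h3, -⟩ := N.ca q hqI
      have h2 := N.c.pos q hqI
      have := h3 hq.2
      have e : √3 * (Pc.ro t q * Real.cos (Pc.al t q)) + Pc.ro t q * Real.sin (Pc.al t q) =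
        Pc.ro t q * (√3 * Real.cos (Pc.al t q) + Real.sin (Pc.al t q)) := by ring
      rw [e, (lin_trig _).1]
      have h3 : Real.sin (Pc.al t q + π / 3) ≤ 0 := by
        rw [← neg_nonneg, ← Real.sin_sub_pi]
        exact Real.sin_nonneg_of_nonneg_of_le_pi (by linarith) (by linarith)
      nlinarith
    have k1 := m1 z0 hp' hp.1
    have k2 := m2 z0 hp' hp.1
    simp only [N.c0.1, N.c0.2.1] at k1 k2
    exact ⟨k1, by nlinarith⟩
  · have z1 : (1:ℝ) ∈ Icc (1 / 2 : ℝ) 1 := ⟨by norm_num, le_refl _⟩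
    have hp' : p ∈ Icc (1 / 2 : ℝ) 1 := ⟨hr, hp.2⟩
    have m1 : AntitoneOn (Pc.y t) (Icc (1 / 2) 1) := by
      refine wanti N.c.py (by norm_num) (le_refl _) (fun q hq => ?_)
      have hqI : q ∈ Icc (0:ℝ) 1 := ⟨by linarith [hq.1], hq.2⟩
      obtain ⟨h1, h1', -, h3⟩ := N.ca q hqI
      have h2 := N.c.pos q hqI
      have := h3 hq.1
      have h4 : Real.sin (Pc.al t q) ≤ 0 := by
        rw [← neg_nonneg, ← Real.sin_sub_pi]
        exact Real.sin_nonneg_of_nonneg_of_le_pi (by linarith) (by linarith)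
      nlinarith
    have m2 : AntitoneOn (fun p => √3 * Pc.x t p - Pc.y t p) (Icc (1 / 2) 1) := by
      refine wanti (f' := fun p => √3 * (Pc.ro t p * Real.cos (Pc.al t p)) -
        Pc.ro t p * Real.sin (Pc.al t p)) (fun p hp => ((N.c.px p hp).const_mul _).sub
        (N.c.py p hp)) (by norm_num) (le_refl _) (fun q hq => ?_)
      have hqI : q ∈ Icc (0:ℝ) 1 := ⟨by linarith [hq.1], hq.2⟩
      obtain ⟨h1, h1', -, h3⟩ := N.ca q hqI
      have h2 := N.c.pos q hqI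
      have := h3 hq.1
      have e : √3 * (Pc.ro t q * Real.cos (Pc.al t q)) - Pc.ro t q * Real.sin (Pc.al t q) =
        Pc.ro t q * (√3 * Real.cos (Pc.al t q) - Real.sin (Pc.al t q)) := by ring
      rw [e, (lin_trig _).2]
      have h3 : Real.sin (π / 3 - Pc.al t q) ≤ 0 :=
        Real.sin_nonpos_of_nonpos_of_neg_pi_le (by linarith) (by linarith)
      nlinarith
    have k1 := m1 hp' z1 hp.2
    have k2 := m2 hp' z1 hp.2
    simp only [N.c1.1, N.c1.2.1] at k1 k2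
    exact ⟨k1, by nlinarith⟩

lemma NS0.a_mono : StrictMonoOn (Pa.x t) (Icc 0 1) := by
  refine smono N.a.px (le_refl _) (le_refl _) (fun p hp => ?_)
  obtain ⟨h1, h1'⟩ := N.aa p hp
  have h2 := N.a.pos p hp
  have hpi := Real.pi_pos
  have h3 : 0 < Real.cos (Pa.al t p) :=
    Real.cos_pos_of_mem_Ioo ⟨by linarith, by linarith⟩
  positivity

lemma NS0.a_x {p : ℝ} (hp : p ∈ Icc (0:ℝ) 1) : xa ≤ Pa.x t p ∧ Pa.x t p ≤ R ∧
    (Pa.x t p = xa → p = 0) := by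
  have z0 : (0:ℝ) ∈ Icc (0:ℝ) 1 := ⟨le_refl _, zero_le_one⟩
  have z1 : (1:ℝ) ∈ Icc (0:ℝ) 1 := ⟨zero_le_one, le_refl _⟩
  have h := N.a_mono
  refine ⟨?_, ?_, fun e => ?_⟩
  · rw [← N.a0.1]; exact h.monotoneOn z0 hp hp.1
  · rw [← N.a1.1]; exact h.monotoneOn hp z1 hp.2
  · exact h.injOn hp z0 (e.trans N.a0.1.symm)

lemma NS0.a_y {p : ℝ} (hp : p ∈ Icc (0:ℝ) 1) : ya ≤ Pa.y t p ∧ Pa.y t p ≤ h := by
  have z0 : (0:ℝ) ∈ Icc (0:ℝ) 1 := ⟨le_refl _, zero_le_one⟩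
  have z1 : (1:ℝ) ∈ Icc (0:ℝ) 1 := ⟨zero_le_one, le_refl _⟩
  have hm : MonotoneOn (Pa.y t) (Icc 0 1) := by
    refine wmono N.a.py (le_refl _) (le_refl _) (fun p hp => ?_)
    obtain ⟨h1, h1'⟩ := N.aa p hp
    have h2 := N.a.pos p hp
    have hpi := Real.pi_pos
    have h3 : 0 ≤ Real.sin (Pa.al t p) :=
      Real.sin_nonneg_of_nonneg_of_le_pi (by linarith) (by linarith)
    positivity
  constructor
  · rw [← N.a0.2.1]; exact hm z0 hp hp.1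
  · rw [← N.a1.2]; exact hm hp z1 hp.2

lemma NS0.xb0 : 0 < xb ∧ xb ≤ 2 * xa := by
  have z1 : (1:ℝ) ∈ Icc (0:ℝ) 1 := ⟨zero_le_one, le_refl _⟩
  obtain ⟨h1, h2, -⟩ := N.s_x z1
  rw [N.s1.1] at h1 h2
  exact ⟨h1, h2⟩

end

end Run7.h661z
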